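import Pool.Agent.U189.NF.Neg
import Pool.Agent.Q57.CX.Main
import Pool.Agent.Q57.FG.FgA

/-!
The finite generation of the multigraded ring of the sections of toroidal divisors, on covers of
projective spaces branched along normal crossing hypersurfaces (following `Pool.Agent.Q57.CX.Main`).
-/

set_option autoImplicit false
set_option linter.overlappingInstances false
set_option linter.unusedSectionVars false
set_option maxHeartbeats 1000000

open FF MvPolynomial Pool.Agent.W603.LV Pool.Agent.W619.PQ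
open Pool.Agent.W619.TW Pool.Agent.W602.GT Pool.Agent.TH122.AB Pool.Agent.TH756.PN
open Pool.Agent.Y169.CH Pool.Agent.W602.Cov Pool.Agent.W602.Cov.G Pool.Agent.Y169.TH
open Pool.Agent.Q57.TP Pool.Agent.Q57.GM Pool.Agent.Q57.FG Pool.Agent.Q57.FT Pool.Agent.Q57.CX

namespace Pool.Agent.U189.NF

section lat

variable {N p : ℕ}

/-- the constraints for the exponents -/
def consN (T : Finset (Fin N → ℕ)) (e : Fin N → ℕ) (E L : ℤ) (β : Fin p → ℤ)
    (q : Fin p → T → ℤ) :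
    ((Fin p → ℤ) × (Fin N → ℤ)) →+ ((T ⊕ (Fin N ⊕ (Fin p ⊕ Fin 1))) → ℤ) :=
  AddMonoidHom.mk' (fun γ => Sum.elim
    (fun s => L * ∑ k, (e k : ℤ) * s.1 k * γ.2 k - ∑ i, q i s * γ.1 i)
    (Sum.elim (fun k => γ.2 k) (Sum.elim (fun i => γ.1 i)
      (fun _ => ∑ i, γ.1 i * β i - E * ∑ k, γ.2 k)))) (by
    intro x y
    funext s
    rcases s with s | k | i | i
    · simp only [Sum.elim_inl, Pi.add_apply, Prod.fst_add, Prod.snd_add, mul_add,
        Finset.sum_add_distrib]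
      ring
    · simp only [Sum.elim_inl, Sum.elim_inr, Pi.add_apply, Prod.snd_add]
    · simp only [Sum.elim_inl, Sum.elim_inr, Pi.add_apply, Prod.fst_add]
    · simp only [Sum.elim_inr, Pi.add_apply, Prod.fst_add, Prod.snd_add, add_mul,
        Finset.sum_add_distrib]
      ring)

variable {T : Finset (Fin N → ℕ)} {e : Fin N → ℕ} {E L : ℤ} {β : Fin p → ℤ} {q : Fin p → T → ℤ}

theorem consN_vec (γ : (Fin p → ℤ) × (Fin N → ℤ)) (s : T) : consN T e E L β q γ (Sum.inl s) =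
    L * ∑ k, (e k : ℤ) * s.1 k * γ.2 k - ∑ i, q i s * γ.1 i := rfl

theorem consN_coord (γ : (Fin p → ℤ) × (Fin N → ℤ)) (k : Fin N) :
    consN T e E L β q γ (Sum.inr (Sum.inl k)) = γ.2 k := rfl

theorem consN_m (γ : (Fin p → ℤ) × (Fin N → ℤ)) (i : Fin p) :
    consN T e E L β q γ (Sum.inr (Sum.inr (Sum.inl i))) = γ.1 i := rfl

theorem consN_deg (γ : (Fin p → ℤ) × (Fin N → ℤ)) (l : Fin 1) :
    consN T e E L β q γ (Sum.inr (Sum.inr (Sum.inr l))) =
      ∑ i, γ.1 i * β i - E * ∑ k, γ.2 k := rfl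

theorem consN_inj : Function.Injective (consN T e E L β q) := by
  rw [injective_iff_map_eq_zero]
  intro γ hγ
  refine Prod.ext ?_ ?_
  · funext i
    exact congrFun hγ (Sum.inr (Sum.inr (Sum.inl i)))
  · funext k
    exact congrFun hγ (Sum.inr (Sum.inl k))

/-- the lattice points with exact constraints satisfy all the inequalities -/
theorem exN_adm {c : Fin p → (Fin N → ℕ) → ℚ} {L : ℕ} (hL : 0 < L)
    {q : Fin p → T → ℤ} (hq : ∀ i (s : T), (L : ℚ) * (- c i s.1) = q i s)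
    {γ : (Fin p → ℤ) × (Fin N → ℤ)} (h : ∀ s, 0 ≤ consN T e E L β q γ s) {v : Fin N → ℕ}
    {w : (Fin N → ℕ) → ℚ} (hw : ∀ s, 0 ≤ w s) (hwv : ∀ k, ∑ s ∈ T, w s * s k ≤ v k)
    (hwc : ∀ i, - c i v ≤ ∑ s ∈ T, w s * (- c i s)) :
    ∑ i, (γ.1 i : ℚ) * (- c i v) ≤ ((∑ k, (e k : ℤ) * v k * γ.2 k : ℤ) : ℚ) := by
  classical
  have hLq : (0 : ℚ) < L := by exact_mod_cast hL
  have hm : ∀ i, (0 : ℚ) ≤ γ.1 i := fun i => by
    have h0 := h (Sum.inr (Sum.inr (Sum.inl i)))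
    rw [consN_m] at h0
    exact_mod_cast h0
  have h1 : ∀ s : T, ∑ i, (γ.1 i : ℚ) * (- c i s.1) ≤ ∑ k, (e k : ℚ) * s.1 k * γ.2 k := by
    intro s
    have h2 := h (Sum.inl s)
    rw [consN_vec] at h2
    have h3 : ((∑ i, q i s * γ.1 i : ℤ) : ℚ) ≤
        ((L * ∑ k, (e k : ℤ) * s.1 k * γ.2 k : ℤ) : ℚ) := by
      exact_mod_cast (by linarith : ∑ i, q i s * γ.1 i ≤ L * ∑ k, (e k : ℤ) * s.1 k * γ.2 k)
    push_cast at h3
    have h4 : (L : ℚ) * ∑ i, (γ.1 i : ℚ) * (- c i s.1) ≤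
        L * ∑ k, (e k : ℚ) * s.1 k * γ.2 k := by
      refine le_trans (le_of_eq ?_) h3
      rw [Finset.mul_sum]
      refine Finset.sum_congr rfl fun i _ => ?_
      rw [← hq i s]
      ring
    exact le_of_mul_le_mul_left h4 hLq
  have h2 : ∀ k, (0 : ℚ) ≤ e k * γ.2 k := by
    intro k
    have h3 := h (Sum.inr (Sum.inl k))
    rw [consN_coord] at h3
    have h4 : (0 : ℚ) ≤ γ.2 k := by exact_mod_cast h3
    positivity
  calc ∑ i, (γ.1 i : ℚ) * (- c i v) ≤ ∑ i, (γ.1 i : ℚ) * ∑ s ∈ T, w s * (- c i s) :=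
        Finset.sum_le_sum fun i _ => mul_le_mul_of_nonneg_left (hwc i) (hm i)
    _ = ∑ s ∈ T, w s * ∑ i, (γ.1 i : ℚ) * (- c i s) := by
        simp only [Finset.mul_sum]
        rw [Finset.sum_comm]
        exact Finset.sum_congr rfl fun s _ => Finset.sum_congr rfl fun i _ => by ring
    _ ≤ ∑ s ∈ T, w s * ∑ k, (e k : ℚ) * s k * γ.2 k :=
        Finset.sum_le_sum fun s hs => mul_le_mul_of_nonneg_left (h1 ⟨s, hs⟩) (hw s)
    _ = ∑ k, (∑ s ∈ T, w s * s k) * (e k * γ.2 k) := by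
        simp only [Finset.mul_sum, Finset.sum_mul]
        rw [Finset.sum_comm]
        exact Finset.sum_congr rfl fun k _ => Finset.sum_congr rfl fun s _ => by ring
    _ ≤ ∑ k, (v k : ℚ) * (e k * γ.2 k) :=
        Finset.sum_le_sum fun k _ => mul_le_mul_of_nonneg_right (hwv k) (h2 k)
    _ = _ := by
        push_cast
        exact Finset.sum_congr rfl fun k _ => by ring

end lat

variable {d p : ℕ} {Φ : Arr (d + 1)} {K : Type} [Field K] [Algebra ℂ K] {R : ℕ} {C : Cv Φ K R}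
  {c : Fin p → (Fin (d + 2) → ℕ) → ℚ} {β : Fin p → ℤ} {δ : Fin p → Place ℂ K → ℚ} {y0 : K}

/-- the coefficients of the toroidal divisor with the coefficient function `c` and the degree `β` -/
structure CoefY (C : Cv Φ K R) (y0 : K) (c : (Fin (d + 2) → ℕ) → ℚ) (β : ℤ)
    (δ : Place ℂ K → ℚ) : Prop where
  h0 : c 0 = 0
  hδ : ∀ P α v, Dat P Φ.F Φ.dF C.x α v → δ P = c v - (β : ℚ) * (α + P.ord y0)

/-- the total degree -/
def btN (β : Fin p → ℤ) (μ : Fin p →₀ ℕ) : ℤ := ∑ i, (μ i : ℤ) * β i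

theorem sum_coefY (hcf : ∀ i, CoefY C y0 (c i) (β i) (δ i)) (μ : Fin p →₀ ℕ) {P : Place ℂ K}
    {α : ℤ} {v : Fin (d + 2) → ℕ} (h : Dat P Φ.F Φ.dF C.x α v) :
    ∑ i, (μ i : ℚ) * δ i P = ∑ i, (μ i : ℚ) * c i v - (btN β μ : ℚ) * (α + P.ord y0) := by
  unfold btN
  push_cast
  rw [Finset.sum_mul, ← Finset.sum_sub_distrib]
  refine Finset.sum_congr rfl fun i _ => ?_
  rw [(hcf i).hδ P α v h]
  ring

/-- the divisor in affine coordinates -/
theorem coefY_coefN (hcf : ∀ i, CoefY C y0 (c i) (β i) (δ i))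
    (hle : ∀ i v, Pool.Agent.Y169.TH.Adm C.M C.a v → c i v ≤ 0) (μ : Fin p →₀ ℕ) :
    CoefN C (fun v => ∑ i, (μ i : ℚ) * c i v) (btN β μ)
      (fun P => ∑ i, (μ i : ℚ) * δ i P + (btN β μ : ℚ) * P.ord y0) := by
  refine ⟨?_, fun v hv => ?_, fun P α v h => ?_⟩
  · refine Finset.sum_eq_zero fun i _ => ?_
    rw [(hcf i).h0, mul_zero]
  · exact Finset.sum_nonpos fun i _ => mul_nonpos_of_nonneg_of_nonpos (by positivity) (hle i v hv)
  · rw [sum_coefY hcf μ h]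
    ring

/-- the monomial of a lattice point -/
noncomputable def mN (C : Cv Φ K R) (y0 : K) (β : Fin p → ℤ) (θ : K)
    (γ : (Fin p → ℤ) × (Fin (d + 2) → ℤ)) : K :=
  θ ^ (- ∑ i, γ.1 i) * y0 ^ (∑ i, γ.1 i * β i) * ∏ k, aeval C.x (Φ.G k) ^ γ.2 k

theorem mN_zero (θ : K) : mN (p := p) C y0 β θ 0 = 1 := by
  unfold mN
  simp

theorem mN_add (hy0 : y0 ≠ 0) {θ : K} (hθ : θ ≠ 0) (γ γ' : (Fin p → ℤ) × (Fin (d + 2) → ℤ)) :
    mN C y0 β θ (γ + γ') = mN C y0 β θ γ * mN C y0 β θ γ' := by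
  unfold mN
  have h1 : - ∑ i, (γ + γ').1 i = - ∑ i, γ.1 i + - ∑ i, γ'.1 i := by
    simp only [Prod.fst_add, Pi.add_apply, Finset.sum_add_distrib]
    ring
  have h2 : ∑ i, (γ + γ').1 i * β i = ∑ i, γ.1 i * β i + ∑ i, γ'.1 i * β i := by
    simp only [Prod.fst_add, Pi.add_apply, add_mul, Finset.sum_add_distrib]
  have h3 : ∀ b, (γ + γ').2 b = γ.2 b + γ'.2 b := fun b => rfl
  rw [h1, zpow_add₀ hθ, h2, zpow_add₀ hy0]
  simp only [h3]
  have h5 : ∏ k, aeval C.x (Φ.G k) ^ (γ.2 k + γ'.2 k) =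
      (∏ k, aeval C.x (Φ.G k) ^ γ.2 k) * ∏ k, aeval C.x (Φ.G k) ^ γ'.2 k := by
    rw [← Finset.prod_mul_distrib]
    exact Finset.prod_congr rfl fun k _ => zpow_add₀ (C.G_ne k) _ _
  rw [h5]
  ring

/-- the sections of lattice points -/
theorem monoN_sec (hy0 : y0 ≠ 0) (hcf : ∀ i, CoefY C y0 (c i) (β i) (δ i))
    {μ : Fin p →₀ ℕ} {a : Fin (d + 2) → ℕ} (hy : (Φ.E : ℤ) * ∑ k, (a k : ℤ) ≤ btN β μ)
    (hadm : ∀ v, Pool.Agent.Y169.TH.Adm C.M C.a v → ∑ i, (μ i : ℚ) * (- c i v) ≤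
      ((∑ k, (Φ.ee k : ℤ) * v k * a k : ℤ) : ℚ)) :
    FSec (d + 1) δ μ (y0 ^ (btN β μ) * ∏ k, aeval C.x (Φ.G k) ^ a k) := by
  classical
  intro P _
  right
  obtain ⟨α, v, hα, hdat⟩ := C.exists_dat P
  rw [P.ord_mul (zpow_ne_zero _ hy0)
    (Finset.prod_ne_zero_iff.2 fun k _ => pow_ne_zero _ (C.G_ne k)), P.ord_zpow,
    ord_prod' P Finset.univ _ fun k _ => pow_ne_zero _ (C.G_ne k), sum_coefY hcf μ hdat]
  have h1 : ∑ k, P.ord (aeval C.x (Φ.G k) ^ a k) = (Φ.E : ℤ) * (∑ k, (a k : ℤ)) * α +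
      ∑ k, (Φ.ee k : ℤ) * v k * a k := by
    rw [Finset.mul_sum, Finset.sum_mul, ← Finset.sum_add_distrib]
    refine Finset.sum_congr rfl fun k _ => ?_
    rw [P.ord_pow, C.ord_G hdat]
    ring
  rw [h1]
  have h2 : (btN β μ) * α ≤ (Φ.E : ℤ) * (∑ k, (a k : ℤ)) * α :=
    mul_le_mul_of_nonpos_right hy hα
  have h3 : ∑ i, (μ i : ℚ) * (- c i v) ≤ ((∑ k, (Φ.ee k : ℤ) * v k * a k : ℤ) : ℚ) := by
    by_cases hv : v = 0
    · rw [hv]
      refine le_of_eq ?_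
      simp [(hcf _).h0]
    · exact hadm v (C.adm hdat hv)
  have h4 : ∑ i, (μ i : ℚ) * (- c i v) = - ∑ i, (μ i : ℚ) * c i v := by
    rw [← Finset.sum_neg_distrib]
    exact Finset.sum_congr rfl fun i _ => by ring
  rw [h4] at h3
  have h5 : (((btN β μ) * α : ℤ) : ℚ) ≤ (((Φ.E : ℤ) * (∑ k, (a k : ℤ)) * α : ℤ) : ℚ) := by
    exact_mod_cast h2
  rw [Int.cast_add, Int.cast_add, Int.cast_mul (btN β μ) (P.ord y0)]
  rw [Int.cast_mul (btN β μ) α] at h5
  have h6 : (btN β μ : ℚ) * ((α : ℚ) + P.ord y0) = (btN β μ : ℚ) * α + (btN β μ : ℚ) * P.ord y0 := by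
    ring
  rw [h6]
  linarith

/-- **Finite generation**, for divisors with nonpositive coefficients. -/
theorem coxN (hy0 : y0 ≠ 0) (hcf : ∀ i, CoefY C y0 (c i) (β i) (δ i))
    (hle : ∀ i v, Pool.Agent.Y169.TH.Adm C.M C.a v → c i v ≤ 0)
    (hmul : ∀ i v (r : ℕ), 1 ≤ r → Pool.Agent.Y169.TH.Adm C.M C.a v →
      - c i (r • v) ≤ r * (- c i v))
    {T : Finset (Fin (d + 2) → ℕ)} (hTadm : ∀ s ∈ T, Pool.Agent.Y169.TH.Adm C.M C.a s)
    (hTu : ∀ k, uv C.M k ∈ T)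
    (hTgen : ∀ v, Pool.Agent.Y169.TH.Adm C.M C.a v → ∃ w : (Fin (d + 2) → ℕ) → ℚ,
      (∀ s, 0 ≤ w s) ∧ (∀ k, ∑ s ∈ T, w s * s k ≤ v k) ∧
        ∀ i, - c i v ≤ ∑ s ∈ T, w s * (- c i s))
    {A : Type} [AddCommGroup A] (π : (Fin p → ℤ) →+ A) {θ : K} (hθ : θ ≠ 0)
    (RR : Subalgebra ℂ (AddMonoidAlgebra K A))
    (hR1 : ∀ (μ : Fin p →₀ ℕ) (f : K), FSec (d + 1) δ μ f →
      AddMonoidAlgebra.single (π fun i => (μ i : ℤ)) (f * (θ ^ ∑ i, μ i)⁻¹) ∈ RR)
    (hR2 : ∀ w ∈ RR, w ∈ Submodule.span ℂ {y | ∃ (μ : Fin p →₀ ℕ) (f : K),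
      FSec (d + 1) δ μ f ∧
        y = AddMonoidAlgebra.single (π fun i => (μ i : ℤ)) (f * (θ ^ ∑ i, μ i)⁻¹)}) :
    RR.FG := by
  classical
  obtain ⟨L, hL, hden⟩ := Pool.Agent.Y169.TH.exists_den fun s : Fin p × T => - c s.1 s.2.1
  choose q' hq' using hden
  obtain ⟨q, hq⟩ : ∃ q : Fin p → T → ℤ, q = fun i s => q' (i, s) := ⟨_, rfl⟩
  have hqs : ∀ i (s : T), (L : ℚ) * (- c i s.1) = q i s := fun i s => by
    rw [hq]
    exact hq' (i, s)
  choose X hX using fun s : T => C.exists_dir (hTadm s.1 s.2)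
  obtain ⟨N0, βK, Q, c1, hQ, hstr⟩ := sec_n C X {1}
  obtain ⟨mon, hmon⟩ : ∃ mon : (Fin p → ℤ) × (Fin (d + 2) → ℤ) → AddMonoidAlgebra K A,
    mon = fun γ => AddMonoidAlgebra.single (π γ.1) (mN C y0 β θ γ) := ⟨_, rfl⟩
  obtain ⟨cs, hcs⟩ : ∃ cs : T ⊕ (Fin (d + 2) ⊕ (Fin p ⊕ Fin 1)) → ℤ,
    cs = Sum.elim (fun _ => (L : ℤ) * c1) (Sum.elim (fun _ => (c1 : ℤ)) (Sum.elim (fun _ => 0)
      fun _ => (c1 : ℤ) + Φ.E)) := ⟨_, rfl⟩
  refine fg_lat (consN T Φ.ee Φ.E L β q) consN_inj mon ?_ (fun γ γ' => ?_)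
    (fun i : Fin N0 => AddMonoidAlgebra.single 0 (βK i / Q)) cs RR (fun γ hγ => ?_)
    fun w hw => ?_
  · rw [hmon]
    beta_reduce
    rw [mN_zero, Prod.fst_zero, map_zero]
    rfl
  · rw [hmon]
    beta_reduce
    rw [mN_add hy0 hθ, AddMonoidAlgebra.single_mul_single, Prod.fst_add, map_add]
  · -- the monomials in the cone are sections
    obtain ⟨μ, hμ⟩ : ∃ μ : Fin p →₀ ℕ, ∀ i, (μ i : ℤ) = γ.1 i :=
      ⟨toN γ.1, fun i => toN_coe (fun i => by
        have h0 := hγ (Sum.inr (Sum.inr (Sum.inl i)))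
        rwa [consN_m] at h0) i⟩
    obtain ⟨a, ha⟩ : ∃ a : Fin (d + 2) →₀ ℕ, ∀ b, (a b : ℤ) = γ.2 b :=
      ⟨toN γ.2, fun i => toN_coe (fun i => by
        have h0 := hγ (Sum.inr (Sum.inl i))
        rwa [consN_coord] at h0) i⟩
    have hbt : btN β μ = ∑ i, γ.1 i * β i := by
      unfold btN
      exact Finset.sum_congr rfl fun i _ => by rw [hμ]
    have h1 := hR1 μ _ (monoN_sec hy0 hcf (μ := μ) (a := fun k => a k) ?_ fun v hv => ?_)
    · rw [hmon]
      beta_reduce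
      have h2 : (fun i => (μ i : ℤ)) = γ.1 := funext hμ
      have h3 : mN C y0 β θ γ = (y0 ^ (btN β μ)) * (∏ k, aeval C.x (Φ.G k) ^ a k) *
          (θ ^ ∑ i, μ i)⁻¹ := by
        unfold mN
        have h4 : ∑ i, γ.1 i = ((∑ i, μ i : ℕ) : ℤ) := by
          push_cast
          exact Finset.sum_congr rfl fun i _ => (hμ i).symm
        rw [h4, zpow_neg, zpow_natCast, ← hbt]
        simp only [← ha, zpow_natCast]
        ring
      rw [h3]
      rw [h2] at h1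
      exact h1
    · have h0 := hγ (Sum.inr (Sum.inr (Sum.inr 0)))
      rw [consN_deg] at h0
      rw [hbt]
      simp only [ha]
      linarith
    · obtain ⟨w, hw, hwv, hwc⟩ := hTgen v hv
      have h1 := exN_adm hL hqs hγ hw hwv hwc
      simp only [← hμ, ← ha] at h1
      push_cast at h1 ⊢
      exact h1
  · -- the sections are spanned by monomials
    refine (Submodule.span_le.2 ?_) (hR2 w hw)
    rintro y ⟨μ, f, hf, rfl⟩
    by_cases hf0 : f = 0
    · rw [hf0, zero_mul, AddMonoidAlgebra.single_zero]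
      exact Submodule.zero_mem _
    have hcF := coefY_coefN hcf hle μ
    have hray : ∀ v (r : ℕ), 1 ≤ r → Pool.Agent.Y169.TH.Adm C.M C.a v →
        - (∑ i, (μ i : ℚ) * c i (r • v)) ≤ r * (- ∑ i, (μ i : ℚ) * c i v) := by
      intro v r hr hv
      simp only [← Finset.sum_neg_distrib, Finset.mul_sum]
      refine Finset.sum_le_sum fun i _ => ?_
      have h1 := mul_le_mul_of_nonneg_left (hmul i v r hr hv) (by positivity : (0 : ℚ) ≤ μ i)
      linarith
    obtain ⟨bt, hbt⟩ : ∃ bt, bt = btN β μ := ⟨_, rfl⟩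
    rw [← hbt] at hcF
    have hy : y0 ^ (- bt) ≠ 0 := zpow_ne_zero _ hy0
    -- the section in affine coordinates
    have hsec : ∀ P : Place ℂ K, IsDivisorial P (d + 1) →
        - (∑ i, (μ i : ℚ) * δ i P + (bt : ℚ) * P.ord y0) ≤ P.ord (f * y0 ^ (- bt)) := by
      intro P hP
      have h1 := (hf P hP).resolve_left hf0
      rw [P.ord_mul hf0 hy, P.ord_zpow]
      push_cast
      linarith
    have hbt0 : 0 ≤ bt := deg_nonneg C hcF hray (mul_ne_zero hf0 hy) hsec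
    obtain ⟨t, hq1, hq2⟩ := exists_deg Φ.E_pos (B := bt + c1) (by positivity)
    obtain ⟨Rp, hR, hRs⟩ := hstr hcF hray 1 0 t (f * y0 ^ (- bt)) (fun P hP => by
      right
      refine ⟨1, mem_pw.2 ⟨1, by simp, one_pow _⟩, one_ne_zero, ?_⟩
      have h1 := hsec P hP
      rw [P.ord_one]
      push_cast at h1 ⊢
      linarith) (by
        push_cast
        linarith)
    rw [zero_add, pow_one] at hR
    obtain ⟨a', ha'⟩ : ∃ a' : (Fin (d + 1) →₀ ℕ) → Fin (d + 2) → ℤ,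
      a' = fun a => Fin.cases ((t : ℤ) - ∑ b, (a b : ℤ)) fun b => (a b : ℤ) := ⟨_, rfl⟩
    have ha0 : ∀ a, a' a 0 = (t : ℤ) - ∑ b, (a b : ℤ) := fun a => by rw [ha']; rfl
    have has : ∀ a (b : Fin (d + 1)), a' a b.succ = a b := fun a b => by rw [ha']; rfl
    -- the monomials
    have hmonY : ∀ a : Fin (d + 1) →₀ ℕ, (∏ b, C.Y b ^ a b) * aeval C.x (Φ.G 0) ^ t =
        ∏ k, aeval C.x (Φ.G k) ^ (a' a k) := by
      intro a
      have h0 : ∏ k, aeval C.x (Φ.G k) ^ (a' a k) = aeval C.x (Φ.G 0) ^ (a' a 0) *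
          ∏ b : Fin (d + 1), aeval C.x (Φ.G b.succ) ^ (a' a b.succ) := Fin.prod_univ_succ _
      rw [h0, ha0]
      simp only [has]
      have h3 : ∏ b, C.Y b ^ a b = (∏ b : Fin (d + 1), aeval C.x (Φ.G b.succ) ^ (a b : ℤ)) /
          aeval C.x (Φ.G 0) ^ (∑ b, (a b : ℤ)) := by
        have h4 : aeval C.x (Φ.G 0) ^ (∑ b, (a b : ℤ)) =
            ∏ b : Fin (d + 1), aeval C.x (Φ.G 0) ^ (a b : ℤ) := by
          have h5 : ∑ b, (a b : ℤ) = ((∑ b, a b : ℕ) : ℤ) := by push_cast; rfl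
          rw [h5, zpow_natCast]
          simp only [zpow_natCast]
          rw [Finset.prod_pow_eq_pow_sum]
        rw [h4, ← Finset.prod_div_distrib]
        refine Finset.prod_congr rfl fun b _ => ?_
        unfold Cv.Y
        rw [zpow_natCast, zpow_natCast, div_pow]
      rw [h3, zpow_sub₀ (C.G_ne 0), zpow_natCast]
      have h6 := zpow_ne_zero (∑ b, (a b : ℤ)) (C.G_ne 0)
      field_simp
    have hγ0 : aeval C.x (Φ.G 0) ^ t ≠ 0 := pow_ne_zero _ (C.G_ne 0)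
    have hf2 : f = y0 ^ bt * ((∑ i, aeval C.Y (Rp i) * βK i) * aeval C.x (Φ.G 0) ^ t / Q) := by
      rw [← hR]
      have h1 : y0 ^ bt * y0 ^ (- bt) = 1 := by
        rw [← zpow_add₀ hy0, add_neg_cancel, zpow_zero]
      have h2 : y0 ^ bt * (f * y0 ^ (- bt) / aeval C.x (Φ.G 0) ^ t * Q *
          aeval C.x (Φ.G 0) ^ t / Q) = f * (y0 ^ bt * y0 ^ (- bt)) := by
        field_simp
      rw [h2, h1, mul_one]
    have hexp : f * (θ ^ ∑ i, μ i)⁻¹ = ∑ i, ∑ a ∈ (Rp i).support,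
        coeff a (Rp i) • (mN C y0 β θ (fun i => (μ i : ℤ), a' a) * (βK i / Q)) := by
      conv_lhs => rw [hf2]
      rw [Finset.sum_mul, Finset.sum_div, Finset.mul_sum, Finset.sum_mul]
      refine Finset.sum_congr rfl fun i _ => ?_
      have h3 : aeval C.Y (Rp i) = ∑ a ∈ (Rp i).support, algebraMap ℂ K (coeff a (Rp i)) *
          ∏ b, C.Y b ^ a b := by
        conv_lhs => rw [(Rp i).as_sum, map_sum]
        refine Finset.sum_congr rfl fun a _ => ?_
        rw [aeval_monomial, Finsupp.prod_fintype _ _ fun i => pow_zero _]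
      rw [h3, Finset.sum_mul, Finset.sum_mul, Finset.sum_div, Finset.mul_sum, Finset.sum_mul]
      refine Finset.sum_congr rfl fun a _ => ?_
      rw [Algebra.smul_def]
      unfold mN
      have h4 : ∑ i, (μ i : ℤ) = ((∑ i, μ i : ℕ) : ℤ) := by push_cast; rfl
      have h5 : ∑ i, (μ i : ℤ) * β i = bt := by rw [hbt]; rfl
      dsimp only
      rw [h4, zpow_neg, zpow_natCast, h5, ← hmonY]
      ring
    rw [hexp]
    have hsum : (AddMonoidAlgebra.single (π fun i => (μ i : ℤ)) (∑ i, ∑ a ∈ (Rp i).support,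
        coeff a (Rp i) • (mN C y0 β θ (fun i => (μ i : ℤ), a' a) * (βK i / Q))) :
          AddMonoidAlgebra K A) =
        ∑ i, ∑ a ∈ (Rp i).support, coeff a (Rp i) •
          (mon (fun i => (μ i : ℤ), a' a) * AddMonoidAlgebra.single 0 (βK i / Q)) := by
      rw [← AddMonoidAlgebra.singleAddHom_apply, map_sum]
      refine Finset.sum_congr rfl fun i _ => ?_
      rw [map_sum]
      refine Finset.sum_congr rfl fun a _ => ?_
      rw [AddMonoidAlgebra.singleAddHom_apply, hmon]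
      beta_reduce
      rw [AddMonoidAlgebra.single_mul_single, add_zero, AddMonoidAlgebra.smul_single]
    rw [hsum]
    refine Submodule.sum_mem _ fun i _ => Submodule.sum_mem _ fun a ha =>
      Submodule.smul_mem _ _ (Submodule.subset_span ⟨_, i, fun s => ?_, rfl⟩)
    -- the constraints
    have hsuma : ∑ k, a' a k = t := by
      rw [Fin.sum_univ_succ, ha0, Finset.sum_congr rfl fun b _ => has a b]
      ring
    have hlin : ∀ w : Fin (d + 2) → ℕ, ∑ k, (Φ.ee k : ℤ) * w k * a' a k =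
        (Φ.ee 0 * w 0 : ℤ) * (t - ∑ b, (a b : ℤ)) +
          ∑ b, (Φ.ee b.succ * w b.succ : ℤ) * a b := by
      intro w
      rw [Fin.sum_univ_succ, ha0]
      congr 1
      exact Finset.sum_congr rfl fun b _ => by rw [has]
    have hT1 : ∀ s : T, (- ∑ i, (μ i : ℚ) * c i s.1) - c1 ≤
        ((∑ k, (Φ.ee k : ℤ) * s.1 k * a' a k : ℤ) : ℚ) := by
      intro s
      have h1 := hRs i a ha s
      rw [hX, ← hlin] at h1
      push_cast at h1 ⊢
      linarith
    rcases s with s | k | i' | l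
    · rw [consN_vec, hcs, Sum.elim_inl]
      have h1 := hT1 s
      have hLq : (0 : ℚ) < L := by exact_mod_cast hL
      have h2 := mul_le_mul_of_nonneg_left h1 hLq.le
      have h4 : ((∑ i, q i s * (μ i : ℤ) : ℤ) : ℚ) = L * (- ∑ i, (μ i : ℚ) * c i s.1) := by
        push_cast
        rw [← Finset.sum_neg_distrib, Finset.mul_sum]
        refine Finset.sum_congr rfl fun i _ => ?_
        rw [← hqs i s]
        ring
      have h3 : (((- ((L : ℤ) * c1) : ℤ)) : ℚ) ≤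
          ((L * ∑ k, (Φ.ee k : ℤ) * s.1 k * a' a k - ∑ i, q i s * (μ i : ℤ) : ℤ) : ℚ) := by
        rw [Int.cast_sub, h4]
        push_cast at h2 ⊢
        linarith
      exact Int.cast_le.1 h3
    · rw [consN_coord, hcs, Sum.elim_inr, Sum.elim_inl]
      have h1 := hT1 ⟨_, hTu k⟩
      have h2 : ∑ l, (Φ.ee l : ℤ) * uv C.M k l * a' a l = Φ.ee k * per C.M * a' a k := by
        rw [Finset.sum_eq_single k]
        · unfold uv
          rw [if_pos rfl]
        · intro l _ hl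
          unfold uv
          rw [if_neg hl]
          simp
        · intro h
          exact absurd (Finset.mem_univ _) h
      dsimp only at h1
      rw [h2] at h1
      have h4 : (0 : ℚ) ≤ - ∑ i, (μ i : ℚ) * c i (uv C.M k) := by
        rw [← Finset.sum_neg_distrib]
        refine Finset.sum_nonneg fun i _ => ?_
        have h5 := hle i _ (hTadm _ (hTu k))
        have h6 : (0 : ℚ) ≤ μ i := by positivity
        nlinarith
      have h5 : (((- (c1 : ℤ)) : ℤ) : ℚ) ≤ ((Φ.ee k * per C.M * a' a k : ℤ) : ℚ) := by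
        push_cast at h1 ⊢
        linarith
      have h6 : - (c1 : ℤ) ≤ Φ.ee k * per C.M * a' a k := by exact_mod_cast h5
      by_cases h7 : 0 ≤ a' a k
      · have : (0 : ℤ) ≤ (c1 : ℤ) := by positivity
        dsimp only
        linarith
      · push Not at h7
        have h8 : (1 : ℤ) ≤ Φ.ee k * per C.M := by
          have h9 := Nat.mul_pos (Φ.ee_pos k) (per_pos C.hM)
          exact_mod_cast h9
        dsimp only
        nlinarith
    · rw [consN_m, hcs, Sum.elim_inr, Sum.elim_inr, Sum.elim_inl, neg_zero]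
      positivity
    · rw [consN_deg, hcs, Sum.elim_inr, Sum.elim_inr, Sum.elim_inr]
      dsimp only
      rw [hsuma]
      have h5 : ∑ i, (μ i : ℤ) * β i = bt := by rw [hbt]; rfl
      rw [h5]
      linarith

end Pool.Agent.U189.NF
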