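import Pool.Agent.U189.NF.Sec
import Pool.Agent.Q57.TP.Red

/-!
The degree of a toroidal divisor with nonpositive coefficients at the boundary is nonnegative if the
divisor has a section.
-/

set_option autoImplicit false
set_option linter.overlappingInstances false
set_option linter.unusedSectionVars false
set_option maxHeartbeats 1000000

open FF MvPolynomial Pool.Agent.W603.LV Pool.Agent.W619.PQ
open Pool.Agent.W619.TW Pool.Agent.W602.GT Pool.Agent.TH122.AB Pool.Agent.TH756.PN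
open Pool.Agent.Y169.CH Pool.Agent.W602.Cov.G Pool.Agent.Y169.TH Pool.Agent.Q57.TP
open Pool.Agent.Q57.GM Pool.Agent.Q57.FG Pool.Agent.Q57.FT

namespace Pool.Agent.U189.NF

variable {d : ℕ} {Φ : Arr (d + 1)} {K : Type} [Field K] [Algebra ℂ K] {R : ℕ} (C : Cv Φ K R)

/-- the minimal order -/
theorem dat_min {P : Place ℂ K} {α : ℤ} {v : Fin (d + 2) → ℕ} (h : Dat P Φ.F Φ.dF C.x α v) :
    minO C.x P = α := by
  apply le_antisymm
  · obtain ⟨j, hj⟩ := h.ha2
    rw [← hj]
    exact minO_le _ _ _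
  · exact Finset.le_inf' _ _ fun j _ => h.ha1 j

/-- **The degree is nonnegative.** -/
theorem deg_nonneg {c : (Fin (d + 2) → ℕ) → ℚ} {bt : ℤ} {δ : Place ℂ K → ℚ}
    (hcf : CoefN C c bt δ)
    (hmul : ∀ v (r : ℕ), 1 ≤ r → Pool.Agent.Y169.TH.Adm C.M C.a v → - c (r • v) ≤ r * (- c v))
    {f : K} (hf0 : f ≠ 0)
    (hf : ∀ P : Place ℂ K, IsDivisorial P (d + 1) → - δ P ≤ P.ord f) : 0 ≤ bt := by
  classical
  by_contra hneg
  push Not at hneg
  obtain ⟨T, hT⟩ := C.exists_dir (adm_unit (a := C.a) C.hM (by omega) (0 : Fin (d + 2)))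
  obtain ⟨N0, β, Q, c1, hQ, hstr⟩ := sec_n C (fun _ : Fin 1 => T) {1}
  -- the exponents of bounded degree
  obtain ⟨A, hA⟩ : ∃ A : Finset (Fin (d + 1) →₀ ℕ), ∀ a : Fin (d + 1) →₀ ℕ,
      ∑ b, a b ≤ c1 → a ∈ A := by
    refine ⟨(Finset.Iic (Finsupp.equivFunOnFinite.symm fun _ : Fin (d + 1) => c1)), fun a ha => ?_⟩
    rw [Finset.mem_Iic]
    intro b
    rw [Finsupp.coe_equivFunOnFinite_symm]
    exact (Finset.single_le_sum (f := fun b => a b) (fun _ _ => Nat.zero_le _)
      (Finset.mem_univ b)).trans ha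
  obtain ⟨B, hB⟩ : ∃ B : Finset K, B = (A ×ˢ (Finset.univ : Finset (Fin N0))).image
    fun y => (∏ b, C.Y b ^ y.1 b) * β y.2 := ⟨_, rfl⟩
  obtain ⟨n, hn⟩ : ∃ n : ℕ, n = B.card := ⟨_, rfl⟩
  obtain ⟨k, hk⟩ : ∃ k : ℕ, k = c1 + 1 + n := ⟨_, rfl⟩
  -- the elements
  have hmem : ∀ i : Fin (n + 1), f ^ k * C.u 0 ^ (i : ℕ) * Q ∈
      Submodule.span ℂ (B : Set K) := by
    intro i
    have hcf' : CoefN C (fun v => (k : ℚ) * c v) (k * bt + i)
        (fun P => k * δ P - (i : ℕ) * (minO C.x P : ℚ)) := by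
      refine ⟨by rw [hcf.h0, mul_zero], fun v hv => mul_nonpos_of_nonneg_of_nonpos (by positivity)
        (hcf.le v hv), fun P α v hd => ?_⟩
      rw [hcf.hδ P α v hd, dat_min C hd]
      push_cast
      ring
    obtain ⟨Rp, hR, hRs⟩ := hstr hcf' (fun v r hr hv => by
      have h1 := mul_le_mul_of_nonneg_left (hmul v r hr hv) (by positivity : (0 : ℚ) ≤ k)
      have h2 : (k : ℚ) * (r * -c v) = r * (-(k * c v)) := by ring
      rw [h2] at h1
      linarith) 1 0 0 (f ^ k * C.u 0 ^ (i : ℕ)) (fun P hP => by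
        right
        refine ⟨1, mem_pw.2 ⟨1, by simp, one_pow _⟩, one_ne_zero, ?_⟩
        have h1 := hf P hP
        have h2 : C.u 0 ≠ 0 := C.x_ne _
        rw [P.ord_mul (pow_ne_zero _ hf0) (pow_ne_zero _ h2), P.ord_pow, P.ord_pow, P.ord_one]
        have h3 : minO C.x P ≤ P.ord (C.u 0) := minO_le C.x P (0 : Fin (d + 1)).succ
        have h4 : (minO C.x P : ℚ) ≤ P.ord (C.u 0) := by exact_mod_cast h3
        have h5 := mul_le_mul_of_nonneg_left h4 (by positivity : (0 : ℚ) ≤ ((i : ℕ) : ℚ))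
        have h6 := mul_le_mul_of_nonneg_left h1 (by positivity : (0 : ℚ) ≤ (k : ℚ))
        push_cast
        linarith) (by
          have h1 : ((i : ℕ) : ℤ) ≤ n := by
            have := i.2
            exact_mod_cast Nat.lt_succ_iff.1 this
          have h2 : (k : ℤ) * bt ≤ - k := by
            have h3 : (0 : ℤ) ≤ k := by positivity
            nlinarith
          have h3 : (k : ℤ) = c1 + 1 + n := by
            rw [hk]
            push_cast
            ring
          push_cast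
          rw [h3] at h2 ⊢
          linarith)
    rw [pow_zero, div_one, zero_add, pow_one] at hR
    rw [hR]
    refine Submodule.sum_mem _ fun l _ => ?_
    rw [(Rp l).as_sum, map_sum, Finset.sum_mul]
    refine Submodule.sum_mem _ fun a ha => ?_
    have h1 : aeval C.Y (monomial a (coeff a (Rp l))) * β l =
        coeff a (Rp l) • ((∏ b, C.Y b ^ a b) * β l) := by
      rw [aeval_monomial, Finsupp.prod_fintype _ _ fun i => pow_zero _, Algebra.smul_def]
      ring
    rw [h1]
    refine Submodule.smul_mem _ _ (Submodule.subset_span ?_)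
    rw [hB]
    refine Finset.mem_coe.2 (Finset.mem_image.2 ⟨(a, l), Finset.mem_product.2
      ⟨hA a ?_, Finset.mem_univ l⟩, rfl⟩)
    have h2 := hRs l a ha 0
    rw [hT] at h2
    have h3 : ∑ b : Fin (d + 1), ((Φ.ee b.succ * uv C.M (0 : Fin (d + 2)) b.succ : ℤ)) * (a b : ℤ) = 0 := by
      refine Finset.sum_eq_zero fun b _ => ?_
      unfold uv
      rw [if_neg (Fin.succ_ne_zero b)]
      simp
    have h4 : uv C.M (0 : Fin (d + 2)) 0 = per C.M := if_pos rfl
    rw [h3, h4] at h2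
    have h5 : (0 : ℚ) ≤ - ((k : ℚ) * c (uv C.M (0 : Fin (d + 2)))) := by
      have := hcf.le _ (adm_unit (a := C.a) C.hM (by omega) (0 : Fin (d + 2)))
      have h6 : (0 : ℚ) ≤ k := by positivity
      nlinarith
    have h6 : (((Φ.ee 0 : ℤ) * per C.M * (∑ b, (a b : ℤ)) : ℤ) : ℚ) ≤ ((c1 : ℤ) : ℚ) := by
      push_cast at h2 h5 ⊢
      linarith
    have h7 : (Φ.ee 0 : ℤ) * per C.M * (∑ b, (a b : ℤ)) ≤ c1 := by exact_mod_cast h6
    have h8 : (1 : ℤ) ≤ Φ.ee 0 * per C.M := by
      have h9 := Nat.mul_pos (Φ.ee_pos 0) (per_pos C.hM)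
      exact_mod_cast h9
    have h9 : (0 : ℤ) ≤ ∑ b, (a b : ℤ) := Finset.sum_nonneg fun _ _ => by positivity
    have h10 : (∑ b, (a b : ℤ)) ≤ c1 := by nlinarith
    exact_mod_cast h10
  -- the linear independence
  have hlin : LinearIndependent ℂ fun i : Fin (n + 1) => f ^ k * C.u 0 ^ (i : ℕ) * Q := by
    rw [Fintype.linearIndependent_iff]
    intro g hg i
    have h1 : (f ^ k * Q) * ∑ i : Fin (n + 1), algebraMap ℂ K (g i) * C.u 0 ^ (i : ℕ) = 0 := by
      rw [← hg, Finset.mul_sum]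
      refine Finset.sum_congr rfl fun i _ => ?_
      rw [Algebra.smul_def]
      ring
    have h2 := (mul_eq_zero.1 h1).resolve_left (mul_ne_zero (pow_ne_zero _ hf0) hQ)
    have h3 : aeval C.u (∑ i : Fin (n + 1), MvPolynomial.C (g i) *
        (X 0 : MvPolynomial (Fin (d + 1)) ℂ) ^ (i : ℕ)) = 0 := by
      rw [map_sum, ← h2]
      refine Finset.sum_congr rfl fun i _ => ?_
      rw [map_mul, map_pow, aeval_X, aeval_C]
    have h4 : (∑ i : Fin (n + 1), MvPolynomial.C (g i) *
        (X 0 : MvPolynomial (Fin (d + 1)) ℂ) ^ (i : ℕ)) = 0 := by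
      by_contra h5
      exact C.ae_ne h5 h3
    have h5 := congrArg (coeff (Finsupp.single 0 (i : ℕ))) h4
    rw [coeff_sum, coeff_zero, Finset.sum_eq_single i] at h5
    · rw [coeff_C_mul, X_pow_eq_monomial, coeff_monomial, if_pos rfl, mul_one] at h5
      exact h5
    · intro j _ hj
      rw [coeff_C_mul, X_pow_eq_monomial, coeff_monomial, if_neg, mul_zero]
      intro h6
      apply hj
      have h7 := congrArg (fun s => s 0) h6
      simp only [Finsupp.single_eq_same] at h7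
      exact Fin.ext h7
    · intro h
      exact absurd (Finset.mem_univ _) h
  have h1 := linearIndependent_le_span' (fun i : Fin (n + 1) => f ^ k * C.u 0 ^ (i : ℕ) * Q) hlin
    (B : Set K) (by
      rintro _ ⟨i, rfl⟩
      exact hmem i)
  rw [Cardinal.mk_fin] at h1
  have h2 : n + 1 ≤ Fintype.card (B : Set K) := by exact_mod_cast h1
  have h3 : Fintype.card (B : Set K) = B.card := by simp
  omega

end Pool.Agent.U189.NF
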