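import Pool.Agent.U189.NF.Main
import Pool.Agent.Q57.CX.Ring
import Pool.Agent.U188.LcProj

/-!
The Cox ring of toroidal divisors is finitely generated, on covers of projective spaces branched
along normal crossing hypersurfaces (following `Pool.Agent.Q57.CX.Ring`).
-/

set_option autoImplicit false
set_option linter.overlappingInstances false
set_option linter.unusedSectionVars false
set_option maxHeartbeats 1000000

open FF MvPolynomial Pool.Agent.W603.LV Pool.Agent.W619.PQ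
open Pool.Agent.W619.TW Pool.Agent.W602.GT Pool.Agent.TH122.AB Pool.Agent.TH756.PN
open Pool.Agent.Y169.CH Pool.Agent.W602.Cov Pool.Agent.W602.Cov.G Pool.Agent.Y169.TH
open Pool.Agent.Q57.TP Pool.Agent.Q57.GM Pool.Agent.Q57.FG Pool.Agent.Q57.FT Pool.Agent.Q57.CX
open Pool.Agent.Q57.GE

namespace Pool.Agent.U189.NF

section cone

variable {d R p : ℕ}

/-- a fan of cones which cover the vectors of multiplicities -/
structure FanN (M : Fin R → ℕ) (a : Fin R → Fin (d + 2) → ℕ)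
    (S : Finset (Finset (Fin (d + 2) → ℕ))) : Prop where
  adm : ∀ σ ∈ S, ∀ s ∈ σ, Pool.Agent.Y169.TH.Adm M a s
  cover : ∀ v, Pool.Agent.Y169.TH.Adm M a v → ∃ σ ∈ S, InC σ v

/-- the coefficients of the divisors are linear on the cones of the fan -/
def LinN (M : Fin R → ℕ) (a : Fin R → Fin (d + 2) → ℕ) (S : Finset (Finset (Fin (d + 2) → ℕ)))
    (c : Fin p → (Fin (d + 2) → ℕ) → ℚ)
    (u : Finset (Fin (d + 2) → ℕ) → Fin p → Fin (d + 2) → ℚ) : Prop :=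
  ∀ σ ∈ S, ∀ i v, Pool.Agent.Y169.TH.Adm M a v → InC σ v → - c i v = ∑ k, u σ i k * v k

variable {M : Fin R → ℕ} {a : Fin R → Fin (d + 2) → ℕ} {S : Finset (Finset (Fin (d + 2) → ℕ))}
  {c : Fin p → (Fin (d + 2) → ℕ) → ℚ} {u : Finset (Fin (d + 2) → ℕ) → Fin p → Fin (d + 2) → ℚ}

theorem inC_sm {σ : Finset (Fin (d + 2) → ℕ)} {v : Fin (d + 2) → ℕ} (h : InC σ v) (k : ℕ) :
    InC σ (k • v) := by
  obtain ⟨w, hw, hwv⟩ := h
  refine ⟨fun s => k * w s, fun s => mul_nonneg (by positivity) (hw s), fun j => ?_⟩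
  simp only [Pi.smul_apply, smul_eq_mul]
  push_cast
  rw [hwv j, Finset.mul_sum]
  exact Finset.sum_congr rfl fun s _ => by ring

theorem FanN.ray (h : FanN M a S) (hu : LinN M a S c u) (i : Fin p) (v : Fin (d + 2) → ℕ) (k : ℕ)
    (hk : 1 ≤ k) (hv : Pool.Agent.Y169.TH.Adm M a v) : - c i (k • v) ≤ k * (- c i v) := by
  obtain ⟨σ, hσ, hvσ⟩ := h.cover v hv
  rw [hu σ hσ i v hv hvσ, hu σ hσ i _ (U188.LcProj.adm_smul v k hk hv) (inC_sm hvσ k),
    Finset.mul_sum]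
  refine le_of_eq (Finset.sum_congr rfl fun j _ => ?_)
  simp only [Pi.smul_apply, smul_eq_mul]
  push_cast
  ring

theorem FanN.gen (h : FanN M a S) (hu : LinN M a S c u) {T : Finset (Fin (d + 2) → ℕ)}
    (hT : S.biUnion id ⊆ T) (v : Fin (d + 2) → ℕ) (hv : Pool.Agent.Y169.TH.Adm M a v) :
    ∃ w : (Fin (d + 2) → ℕ) → ℚ, (∀ s, 0 ≤ w s) ∧
      (∀ k, (v k : ℚ) = ∑ s ∈ T, w s * s k) ∧
      ∀ i, - c i v ≤ ∑ s ∈ T, w s * (- c i s) := by
  classical
  obtain ⟨σ, hσ, w, hw, hwv⟩ := h.cover v hv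
  have hsub : σ ⊆ T := fun s hs => hT (Finset.mem_biUnion.2 ⟨σ, hσ, hs⟩)
  have hsum : ∀ f : (Fin (d + 2) → ℕ) → ℚ, ∑ s ∈ T, (if s ∈ σ then w s else 0) * f s =
      ∑ s ∈ σ, w s * f s := by
    intro f
    rw [← Finset.sum_subset hsub]
    · exact Finset.sum_congr rfl fun s hs => by rw [if_pos hs]
    · intro s _ hs
      rw [if_neg hs, zero_mul]
  refine ⟨fun s => if s ∈ σ then w s else 0, fun s => ?_, fun k => ?_, fun i => ?_⟩
  · dsimp only
    split_ifs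
    · exact hw s
    · exact le_rfl
  · rw [hsum fun s => (s k : ℚ), hwv k]
  · rw [hsum fun s => - c i s, hu σ hσ i v hv ⟨w, hw, hwv⟩]
    have h1 : ∀ s ∈ σ, w s * (- c i s) = ∑ k, u σ i k * (w s * s k) := by
      intro s hs
      rw [hu σ hσ i s (h.adm σ hσ s hs) (inC_mem hs), Finset.mul_sum]
      exact Finset.sum_congr rfl fun k _ => by ring
    rw [Finset.sum_congr rfl h1, Finset.sum_comm]
    refine le_of_eq (Finset.sum_congr rfl fun k _ => ?_)
    rw [hwv k, Finset.mul_sum]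

/-- the coefficients grow at most linearly -/
theorem FanN.bdd (h : FanN M a S) (hu : LinN M a S c u) : ∃ t0 : ℕ, ∀ i v,
    Pool.Agent.Y169.TH.Adm M a v → c i v ≤ t0 * ∑ k, (v k : ℚ) := by
  classical
  obtain ⟨t0, ht0⟩ := exists_nat_gt (∑ σ ∈ S, ∑ i, ∑ k, |u σ i k|)
  refine ⟨t0, fun i v hv => ?_⟩
  obtain ⟨σ, hσ, hvσ⟩ := h.cover v hv
  have h1 := hu σ hσ i v hv hvσ
  have h2 : ∀ k, |u σ i k| ≤ t0 := by
    intro k
    have h3 := Finset.single_le_sum (f := fun k => |u σ i k|) (fun _ _ => abs_nonneg _)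
      (Finset.mem_univ k)
    have h4 := Finset.single_le_sum (f := fun i => ∑ k, |u σ i k|)
      (fun _ _ => Finset.sum_nonneg fun _ _ => abs_nonneg _) (Finset.mem_univ i)
    have h5 := Finset.single_le_sum (f := fun σ => ∑ i, ∑ k, |u σ i k|)
      (fun _ _ => Finset.sum_nonneg fun _ _ => Finset.sum_nonneg fun _ _ => abs_nonneg _) hσ
    linarith
  have h3 : - ∑ k, u σ i k * v k ≤ t0 * ∑ k, (v k : ℚ) := by
    rw [← Finset.sum_neg_distrib, Finset.mul_sum]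
    refine Finset.sum_le_sum fun k _ => ?_
    have h4 := (abs_le.1 (h2 k)).1
    have h5 : (0 : ℚ) ≤ v k := by positivity
    nlinarith
  linarith

end cone

variable {d p : ℕ} {Φ : Arr (d + 1)} {K : Type} [Field K] [Algebra ℂ K] {R : ℕ} {C : Cv Φ K R}
  {c : Fin p → (Fin (d + 2) → ℕ) → ℚ} {β : Fin p → ℤ} {δ : Fin p → Place ℂ K → ℚ} {y0 : K}
  {S : Finset (Finset (Fin (d + 2) → ℕ))}
  {u : Finset (Fin (d + 2) → ℕ) → Fin p → Fin (d + 2) → ℚ}

/-- the product of the equations -/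
noncomputable def thN (C : Cv Φ K R) (y0 : K) : K :=
  y0 ^ (∑ k, Φ.dF k) * ∏ k, aeval C.x (Φ.F k)

theorem thN_ne (C : Cv Φ K R) (hy0 : y0 ≠ 0) : thN C y0 ≠ 0 :=
  mul_ne_zero (pow_ne_zero _ hy0) (Finset.prod_ne_zero_iff.2 fun k _ => C.F_ne k)

theorem ord_thN (C : Cv Φ K R) (hy0 : y0 ≠ 0) {P : Place ℂ K} {α : ℤ} {v : Fin (d + 2) → ℕ}
    (h : Dat P Φ.F Φ.dF C.x α v) :
    P.ord (thN C y0) = ∑ k, (v k : ℤ) + (∑ k, (Φ.dF k : ℤ)) * (α + P.ord y0) := by
  unfold thN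
  rw [P.ord_mul (pow_ne_zero _ hy0) (Finset.prod_ne_zero_iff.2 fun k _ => C.F_ne k), P.ord_pow,
    ord_prod' P Finset.univ _ fun k _ => C.F_ne k,
    Finset.sum_congr rfl fun k _ => h.hv k, Finset.sum_add_distrib, ← Finset.sum_mul]
  push_cast
  ring

theorem coefY_shift (hy0 : y0 ≠ 0) {c : (Fin (d + 2) → ℕ) → ℚ} {β : ℤ}
    {δ : Place ℂ K → ℚ} (h : CoefY C y0 c β δ) (t0 : ℕ) :
    CoefY C y0 (fun v => c v - t0 * ∑ k, (v k : ℚ)) (β + t0 * ∑ k, (Φ.dF k : ℤ))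
      (fun P => δ P - t0 * P.ord (thN C y0)) := by
  refine ⟨?_, fun P α v hdat => ?_⟩
  · rw [h.h0]
    simp
  · rw [h.hδ P α v hdat, ord_thN C hy0 hdat]
    push_cast
    ring

/-- **The Cox ring is finitely generated.** -/
theorem coxZN (hy0 : y0 ≠ 0) (hcf : ∀ i, CoefY C y0 (c i) (β i) (δ i))
    (hS : FanN C.M C.a S) (hu : LinN C.M C.a S c u) : (coxRing (d + 1) δ).FG := by
  classical
  obtain ⟨c2, hc2⟩ : ∃ c2 : Fin (p + p) → (Fin (d + 2) → ℕ) → ℚ,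
    c2 = Fin.append c fun i v => - c i v := ⟨_, rfl⟩
  obtain ⟨β2, hβ2⟩ : ∃ β2 : Fin (p + p) → ℤ, β2 = Fin.append β fun i => - β i := ⟨_, rfl⟩
  obtain ⟨δ2, hδ2⟩ : ∃ δ2 : Fin (p + p) → Place ℂ K → ℚ, δ2 = Fin.append δ fun i P => - δ i P :=
    ⟨_, rfl⟩
  have hcf2 : ∀ i, CoefY C y0 (c2 i) (β2 i) (δ2 i) := by
    intro i
    rw [hc2, hβ2, hδ2]
    refine Fin.addCases (fun i => ?_) (fun i => ?_) i
    · simp only [Fin.append_left]
      exact hcf i
    · simp only [Fin.append_right]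
      refine ⟨by rw [(hcf i).h0, neg_zero], fun P α v hdat => ?_⟩
      rw [(hcf i).hδ P α v hdat]
      push_cast
      ring
  have hu2 : LinN C.M C.a S c2 (fun σ => Fin.append (u σ) fun i k => - u σ i k) := by
    intro σ hσ i v hv hvσ
    rw [hc2]
    refine Fin.addCases (fun i => ?_) (fun i => ?_) i
    · simp only [Fin.append_left]
      exact hu σ hσ i v hv hvσ
    · simp only [Fin.append_right]
      rw [hu σ hσ i v hv hvσ, ← Finset.sum_neg_distrib]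
      exact Finset.sum_congr rfl fun k _ => by ring
  obtain ⟨t0, ht0⟩ := hS.bdd hu2
  obtain ⟨th, hth⟩ : ∃ th, th = thN C y0 := ⟨_, rfl⟩
  have hθ : th ≠ 0 := by
    rw [hth]
    exact thN_ne C hy0
  have hθ' : th ^ t0 ≠ 0 := pow_ne_zero _ hθ
  obtain ⟨δ3, hδ3⟩ : ∃ δ3 : Fin (p + p) → Place ℂ K → ℚ,
    δ3 = fun i P => δ2 i P - t0 * P.ord th := ⟨_, rfl⟩
  -- the sections
  have hsum : ∀ (μ : Fin (p + p) →₀ ℕ) P, ∑ i, (μ i : ℚ) * δ3 i P =
      ∑ i, (dif p (fun i => (μ i : ℤ)) i : ℚ) * δ i P - t0 * (∑ i, (μ i : ℚ)) *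
        P.ord th := by
    intro μ P
    rw [hδ3, hδ2]
    have h1 : ∑ i, (μ i : ℚ) * ((Fin.append δ fun i P => - δ i P) i P - t0 * P.ord th) =
        ∑ i, (μ i : ℚ) * (Fin.append δ fun i P => - δ i P) i P - t0 * (∑ i, (μ i : ℚ)) *
          P.ord th := by
      rw [Finset.mul_sum, Finset.sum_mul, ← Finset.sum_sub_distrib]
      exact Finset.sum_congr rfl fun i _ => by ring
    beta_reduce
    rw [h1]
    congr 1
    rw [Fin.sum_univ_add, ← Finset.sum_add_distrib]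
    refine Finset.sum_congr rfl fun i _ => ?_
    rw [Fin.append_left, Fin.append_right, dif_apply]
    push_cast
    ring
  have hsecs : ∀ (μ : Fin (p + p) →₀ ℕ) (f : K), f ≠ 0 → ((FSec (d + 1) δ3 μ f) ↔
      ZSec (d + 1) δ (dif p (fun i => (μ i : ℤ))) (f * ((th ^ t0) ^ ∑ i, μ i)⁻¹)) := by
    intro μ f hf
    have h0 : ((th ^ t0) ^ ∑ i, μ i)⁻¹ ≠ 0 := inv_ne_zero (pow_ne_zero _ hθ')
    have h1 : ∀ P : Place ℂ K, ((P.ord (f * ((th ^ t0) ^ ∑ i, μ i)⁻¹) : ℤ) : ℚ) =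
        P.ord f - t0 * (∑ i, (μ i : ℚ)) * P.ord th := by
      intro P
      rw [P.ord_mul hf h0, P.ord_inv, P.ord_pow, P.ord_pow]
      push_cast
      ring
    constructor
    · intro h P hP
      right
      have h2 := (h P hP).resolve_left hf
      rw [hsum] at h2
      rw [h1]
      linarith
    · intro h P hP
      right
      have h2 := (h P hP).resolve_left (mul_ne_zero hf h0)
      rw [h1] at h2
      rw [hsum]
      linarith
  obtain ⟨T, hT⟩ : ∃ T : Finset (Fin (d + 2) → ℕ),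
    T = S.biUnion id ∪ Finset.univ.image (uv C.M) := ⟨_, rfl⟩
  have hTS : S.biUnion id ⊆ T := by
    rw [hT]
    exact Finset.subset_union_left
  have hTadm : ∀ s ∈ T, Pool.Agent.Y169.TH.Adm C.M C.a s := by
    intro s hs
    rw [hT] at hs
    rcases Finset.mem_union.1 hs with h | h
    · obtain ⟨σ, hσ, hsσ⟩ := Finset.mem_biUnion.1 h
      exact hS.adm σ hσ s hsσ
    · obtain ⟨k, -, rfl⟩ := Finset.mem_image.1 h
      exact adm_unit C.hM (by omega) k
  refine coxN (c := fun i v => c2 i v - t0 * ∑ k, (v k : ℚ))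
    (β := fun i => β2 i + t0 * ∑ k, (Φ.dF k : ℤ))
    (δ := δ3) (T := T) hy0 (fun i => ?_) (fun i v hv => ?_)
    (fun i v k hk hv => ?_) hTadm (fun k => ?_) (fun v hv => ?_) (dif p) hθ' (coxRing (d + 1) δ)
    (fun μ f hf => ?_) fun w hw => ?_
  · rw [hδ3, hth]
    exact coefY_shift hy0 (hcf2 i) t0
  · have := ht0 i v hv
    linarith
  · have h1 := hS.ray hu2 i v k hk hv
    have h2 : ∑ j, (((k • v) j : ℕ) : ℚ) = k * ∑ j, (v j : ℚ) := by
      rw [Finset.mul_sum]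
      refine Finset.sum_congr rfl fun j _ => ?_
      simp only [Pi.smul_apply, smul_eq_mul]
      push_cast
      ring
    rw [h2]
    have h3 : (k : ℚ) * -(c2 i v - t0 * ∑ j, (v j : ℚ)) = k * (- c2 i v) +
        t0 * (k * ∑ j, (v j : ℚ)) := by ring
    rw [h3]
    linarith
  · rw [hT]
    exact Finset.mem_union_right _ (Finset.mem_image_of_mem _ (Finset.mem_univ k))
  · obtain ⟨w, hw, hwv, hwc⟩ := hS.gen hu2 hTS v hv
    refine ⟨w, hw, fun k => (hwv k).ge, fun i => ?_⟩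
    have h1 := hwc i
    have h2 : ∑ k, (v k : ℚ) = ∑ s ∈ T, w s * ∑ k, (s k : ℚ) := by
      rw [Finset.sum_congr rfl fun k _ => hwv k, Finset.sum_comm]
      exact Finset.sum_congr rfl fun s _ => (Finset.mul_sum _ _ _).symm
    have h3 : ∑ s ∈ T, w s * -(c2 i s - t0 * ∑ k, (s k : ℚ)) =
        ∑ s ∈ T, w s * (- c2 i s) + t0 * ∑ k, (v k : ℚ) := by
      rw [h2, Finset.mul_sum, ← Finset.sum_add_distrib]
      exact Finset.sum_congr rfl fun s _ => by ring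
    rw [h3]
    linarith
  · by_cases hf0 : f = 0
    · rw [hf0, zero_mul, AddMonoidAlgebra.single_zero]
      exact Subalgebra.zero_mem _
    exact single_mem ((hsecs μ f hf0).1 hf)
  · -- the elements are sums of homogeneous elements
    have hw' : ∀ μ, ZSec (d + 1) δ μ (w.coeff μ) := hw
    have h1 : w = ∑ μ ∈ w.coeff.support, AddMonoidAlgebra.single μ (w.coeff μ) := by
      apply AddMonoidAlgebra.coeff_injective
      rw [AddMonoidAlgebra.coeff_sum]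
      simp only [AddMonoidAlgebra.coeff_single]
      exact (Finsupp.sum_single w.coeff).symm
    rw [h1]
    refine Submodule.sum_mem _ fun μ hμ => Submodule.subset_span ?_
    have hne : w.coeff μ ≠ 0 := Finsupp.mem_support_iff.1 hμ
    obtain ⟨μ2, hμ2⟩ : ∃ μ2 : Fin (p + p) →₀ ℕ, μ2 = Finsupp.equivFunOnFinite.symm
      (Fin.append (fun i => (μ i).toNat) fun i => (- μ i).toNat) := ⟨_, rfl⟩
    have hl : ∀ i, μ2 (Fin.castAdd p i) = (μ i).toNat := by
      intro i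
      rw [hμ2, Finsupp.equivFunOnFinite_symm_apply_apply, Fin.append_left]
    have hr : ∀ i, μ2 (Fin.natAdd p i) = (- μ i).toNat := by
      intro i
      rw [hμ2, Finsupp.equivFunOnFinite_symm_apply_apply, Fin.append_right]
    have hd : dif p (fun i => (μ2 i : ℤ)) = μ := by
      funext i
      rw [dif_apply, hl, hr]
      exact Int.toNat_sub_toNat_neg _
    have hpow : (th ^ t0) ^ ∑ i, μ2 i ≠ 0 := pow_ne_zero _ hθ'
    have h2 : w.coeff μ * ((th ^ t0) ^ ∑ i, μ2 i) * ((th ^ t0) ^ ∑ i, μ2 i)⁻¹ =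
        w.coeff μ := by
      rw [mul_assoc, mul_inv_cancel₀ hpow, mul_one]
    refine ⟨μ2, w.coeff μ * ((th ^ t0) ^ ∑ i, μ2 i), ?_, ?_⟩
    · rw [hsecs _ _ (mul_ne_zero hne hpow), h2, hd]
      exact hw' μ
    · rw [h2, hd]

/-- **The main theorem.** -/
theorem main_nc {d R p : ℕ} {K : Type} [Field K] [Algebra ℂ K] {x : Fin (d + 2) → K}
    (hx0 : x 0 ≠ 0) (hbas : IsTranscendenceBasis ℂ fun b : Fin (d + 1) => x b.succ / x 0)
    {F : Fin (d + 2) → MvPolynomial (Fin (d + 2)) ℂ} {dF : Fin (d + 2) → ℕ} (hd : ∀ k, 0 < dF k)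
    (hh : ∀ k, (F k).IsHomogeneous (dF k)) (hF : Snc F) {z : Fin R → K} {M : Fin R → ℕ}
    (hM : ∀ j, 0 < M j) {a : Fin R → Fin (d + 2) → ℕ}
    (hz : ∀ j, z j ^ M j = ∏ k, (aeval x (F k) / x 0 ^ dF k) ^ a j k)
    (hdiv : ∀ j, M j ∣ ∑ k, a j k * dF k)
    (hgen : IntermediateField.adjoin ℂ
      (Set.range (fun b : Fin (d + 1) => x b.succ / x 0) ∪ Set.range z) = ⊤)
    {S : Finset (Finset (Fin (d + 2) → ℕ))} (hS : FanN M a S)
    {c : Fin p → (Fin (d + 2) → ℕ) → ℚ} (hc0 : ∀ i, c i 0 = 0)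
    {u : Finset (Fin (d + 2) → ℕ) → Fin p → Fin (d + 2) → ℚ} (hu : LinN M a S c u)
    {β : Fin p → ℤ} {δ : Fin p → Place ℂ K → ℚ}
    (hδ : ∀ i P, δ i P = c i (mul F dF x P) - (β i : ℚ) * minO x P) :
    (coxRing (d + 1) δ).FG := by
  obtain ⟨Φ, rfl, C, rfl, rfl, y0, hy0, hvv⟩ := exists_cv_m hx0 hbas hd hh hF hM hz hdiv hgen
  refine coxZN (C := C) (c := c) (β := β) hy0 (fun i => ⟨hc0 i, fun P α v h => ?_⟩) hS hu
  obtain ⟨h1, h2⟩ := hvv P α v h
  rw [hδ, h2, ← h1]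
  push_cast
  ring

end Pool.Agent.U189.NF
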