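import Pool.Agent.Q57.FG.SecA
import Pool.Agent.Q57.FT.Sec
import Pool.Agent.U189.NF.Cov

/-!
The structure of the sections of toroidal divisors on covers of projective spaces branched along
normal crossing hypersurfaces, uniformly in the divisor (functions instead of canonical forms,
following `Pool.Agent.Q57.FG.SecA` and `Pool.Agent.Q57.FT.Sec`).
-/

set_option autoImplicit false
set_option linter.overlappingInstances false
set_option linter.unusedSectionVars false
set_option maxHeartbeats 1000000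

open FF MvPolynomial IntermediateField Pool.Agent.W603.LV Pool.Agent.W619.PQ
open Pool.Agent.W619.TW Pool.Agent.W602.GT Pool.Agent.TH122.AB Pool.Agent.TH756.PN
open Pool.Agent.Y169.CH Pool.Agent.W602.Cov.G Pool.Agent.Y169.TH Pool.Agent.Q57.TP
open Pool.Agent.Q57.GM Pool.Agent.Q57.FG Pool.Agent.Q57.FT

namespace Pool.Agent.U189.NF

variable {d : ℕ} {Φ : Arr (d + 1)} {K : Type} [Field K] [Algebra ℂ K] {R : ℕ}

/-- the coefficients of a toroidal divisor with nonpositive coefficients at the boundary, which is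
supported over the hypersurfaces and the hyperplane at infinity -/
structure CoefN (C : Cv Φ K R) (c : (Fin (d + 2) → ℕ) → ℚ) (β : ℤ) (δ : Place ℂ K → ℚ) :
    Prop where
  h0 : c 0 = 0
  le : ∀ v, Pool.Agent.Y169.TH.Adm C.M C.a v → c v ≤ 0
  hδ : ∀ P α v, Dat P Φ.F Φ.dF C.x α v → δ P = c v - (β : ℚ) * α

variable (C : Cv Φ K R)

theorem CoefN.le' {C : Cv Φ K R} {c : (Fin (d + 2) → ℕ) → ℚ} {β : ℤ} {δ : Place ℂ K → ℚ}
    (hc : CoefN C c β δ) {P : Place ℂ K} {α : ℤ} {v : Fin (d + 2) → ℕ}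
    (h : Dat P Φ.F Φ.dF C.x α v) : c v ≤ 0 := by
  by_cases hv : v = 0
  · rw [hv, hc.h0]
  · exact hc.le v (C.adm h hv)

section

variable {K0 : Type} [Field K0] [Algebra ℂ K0] [Algebra K0 K] [IsScalarTower ℂ K0 K]
  [FiniteDimensional K0 K]

/-- the places of the irreducible polynomials -/
theorem adic_n {c : (Fin (d + 2) → ℕ) → ℚ} {β : ℤ} {δ : Place ℂ K → ℚ} (hc : CoefN C c β δ)
    {X : Fin (d + 1) → K0} (hX : Gens (k := ℂ) X)
    (hXu : ∀ j, algebraMap K0 K (X j) = C.u j) {p : MvPolynomial (Fin (d + 1)) ℂ}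
    (hp : Irreducible p) {v : Place ℂ K0}
    (hv : ∀ P, P ≠ 0 → 0 ≤ v.ord (aeval X P) ∧ (v.ord (aeval X P) = 0 ↔ ¬ p ∣ P))
    {P : Place ℂ K} {e : ℕ} (h : Over P v e) {S' : Finset K} {m : ℕ} {f : K}
    (hf : SecF (d + 1) δ S' m f) :
    f = 0 ∨ ∃ s ∈ S', s ≠ 0 ∧ P.ord s ≤ P.ord f := by
  classical
  have hreg : ∀ b, 0 ≤ P.ord (C.u b) := by
    intro b
    have h1 : C.u b = algebraMap K0 K (aeval X (MvPolynomial.X b : MvPolynomial (Fin (d + 1)) ℂ)) := by
      rw [aeval_X, hXu]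
    rw [h1, h.2]
    exact mul_nonneg (by positivity) (hv _ (X_ne_zero _)).1
  obtain ⟨α, vv, hα, hdat⟩ := C.exists_dat P
  have hα0 : α = 0 := by
    obtain ⟨l, hl⟩ := hdat.ha2
    have h1 : 0 ≤ P.ord (C.x l) := by
      refine Fin.cases ?_ (fun b => ?_) l
      · rw [C.hx0, P.ord_one]
      · exact hreg b
    have h2 := hdat.ha1 0
    rw [C.hx0, P.ord_one] at h2
    rw [hl] at h1
    omega
  by_cases hz : f = 0
  · exact Or.inl hz
  obtain ⟨s, hs, hs0, hle⟩ := (hf P (div_adic hX hp hv h)).resolve_left hz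
  refine Or.inr ⟨s, hs, hs0, ?_⟩
  have h1 := hc.hδ P _ _ hdat
  have h2 := hc.le' hdat
  rw [hα0, Int.cast_zero, mul_zero, sub_zero] at h1
  rw [h1] at hle
  have h4 : (0 : ℚ) ≤ m := by positivity
  have h5 : (P.ord s : ℚ) ≤ P.ord f := by nlinarith
  exact_mod_cast h5

/-- the place at infinity -/
theorem inf_n {X : Fin (d + 1) → K0} (hX : Gens (k := ℂ) X)
    (hXu : ∀ j, algebraMap K0 K (X j) = C.u j) :
    ∃ v0 : Place ℂ K0, (∀ P : MvPolynomial (Fin (d + 1)) ℂ, P ≠ 0 →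
        v0.ord (aeval X P) = - (degB Finset.univ P : ℤ)) ∧
      ∀ {c : (Fin (d + 2) → ℕ) → ℚ} {β : ℤ} {δ : Place ℂ K → ℚ}, CoefN C c β δ →
      ∀ (P : Place ℂ K), Over P v0 1 → ∀ (S' : Finset K) (m : ℕ) (f : K),
        SecF (d + 1) δ S' m f →
        f = 0 ∨ ∃ s ∈ S', s ≠ 0 ∧ P.ord s ≤ P.ord f + β * m := by
  classical
  obtain ⟨v0, h1, h2⟩ := exists_inf_div (K := K) hX (B := Finset.univ) (c := 0)
    (Finset.mem_univ _)
  refine ⟨v0, h1, fun {c} {β} {δ} hc P hP S' m f hf => ?_⟩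
  have hu : ∀ b, P.ord (C.u b) = -1 := by
    intro b
    have h4 : C.u b = algebraMap K0 K (aeval X (MvPolynomial.X b : MvPolynomial (Fin (d + 1)) ℂ)) := by
      rw [aeval_X, hXu]
    rw [h4, hP.2, h1 _ (X_ne_zero _)]
    have h5 : degB Finset.univ (MvPolynomial.X b : MvPolynomial (Fin (d + 1)) ℂ) = 1 := by
      unfold degB
      rw [support_X, Finset.sup_singleton, Finset.sum_eq_single b]
      · simp
      · intro b' _ hb
        rw [Finsupp.single_apply, if_neg (Ne.symm hb)]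
      · intro h
        exact absurd (Finset.mem_univ _) h
    rw [h5]
    simp
  have h4' : ∀ s, P.ord (aeval C.x (Φ.F s)) = - (Φ.dF s : ℤ) := by
    intro s
    rw [← C.ae_deh, C.ae_K0 hXu, hP.2, h1 _ (Cv.deh_F_ne s), degB_deh (Φ.hh s) (Φ.hI s)]
    simp
  have hδ0 : δ P = β := by
    have hdat : Dat P Φ.F Φ.dF C.x (-1) 0 := by
      refine ⟨C.x_ne, fun l => ?_, ⟨(0 : Fin (d + 1)).succ, hu 0⟩, C.F_ne, fun k => ?_⟩
      · refine Fin.cases ?_ (fun b => ?_) l
        · rw [C.hx0, P.ord_one]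
          norm_num
        · exact (hu b).ge
      · rw [h4']
        simp
    rw [hc.hδ P _ _ hdat, hc.h0]
    push_cast
    ring
  by_cases hz : f = 0
  · exact Or.inl hz
  obtain ⟨s, hs, hs0, hle⟩ := (hf P (h2 P 1 hP)).resolve_left hz
  refine Or.inr ⟨s, hs, hs0, ?_⟩
  rw [hδ0] at hle
  have h5 : (P.ord s : ℚ) ≤ ((P.ord f + β * m : ℤ) : ℚ) := by
    push_cast
    linarith
  exact_mod_cast h5

/-- the test places -/
theorem test_n {c : (Fin (d + 2) → ℕ) → ℚ} {β : ℤ} {δ : Place ℂ K → ℚ} (hc : CoefN C c β δ)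
    {Y : Fin (d + 1) → K0} (hY : Gens (k := ℂ) Y) (lam : Fin (d + 1) → ℤ)
    {b0 : Fin (d + 1)} (hb0 : lam b0 ≠ 0) {v : Place ℂ K0}
    (hv : ∀ P : MvPolynomial (Fin (d + 1)) ℂ, P ≠ 0 → v.ord (aeval Y P) = zord lam P)
    {P : Place ℂ K} {e : ℕ} (h : Over P v e) {α : ℤ} {vv : Fin (d + 2) → ℕ}
    (hdat : Dat P Φ.F Φ.dF C.x α vv) (hα : α ≤ 0) {S' : Finset K} {m : ℕ}
    {f : K} (hf : SecF (d + 1) δ S' m f) {q : ℕ} (hq : β * m ≤ Φ.E * q) :
    f / aeval C.x (Φ.G 0) ^ q = 0 ∨ ∃ s ∈ S', s ≠ 0 ∧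
      (P.ord s : ℚ) + m * (- c vv) - q * (Φ.ee 0 * vv 0) ≤
        P.ord (f / aeval C.x (Φ.G 0) ^ q) := by
  classical
  have hdiv : IsDivisorial P (d + 1) := div_zmono hY lam hb0 hv h
  by_cases hz : f = 0
  · left
    rw [hz, zero_div]
  obtain ⟨s, hs, hs0, hle⟩ := (hf P hdiv).resolve_left hz
  right
  refine ⟨s, hs, hs0, ?_⟩
  rw [hc.hδ P α vv hdat] at hle
  rw [P.ord_div hz (pow_ne_zero _ (C.G_ne 0)), P.ord_pow, C.ord_G hdat]
  have h5 : 0 ≤ ((Φ.E : ℤ) * q - β * m) * (- α) := mul_nonneg (by linarith) (by linarith)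
  have h6 : (0 : ℚ) ≤ ((Φ.E : ℚ) * q - β * m) * (- α) := by exact_mod_cast h5
  push_cast
  nlinarith

end

/-- **The structure of the sections.** -/
theorem sec_n {ι : Type} [Fintype ι] (T : ι → C.Dir) (S : Finset K) :
    ∃ (N0 : ℕ) (β : Fin N0 → K) (Q : K) (c1 : ℕ), Q ≠ 0 ∧
      ∀ {c : (Fin (d + 2) → ℕ) → ℚ} {bt : ℤ} {δ : Place ℂ K → ℚ}, CoefN C c bt δ →
      (∀ v (r : ℕ), 1 ≤ r → Pool.Agent.Y169.TH.Adm C.M C.a v →
        - c (r • v) ≤ r * (- c v)) →
      ∀ (m j q : ℕ) (f : K), SecF (d + 1) δ (pw S j) m f →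
      bt * m + c1 * (j + 1) ≤ Φ.E * q →
      ∃ R : Fin N0 → MvPolynomial (Fin (d + 1)) ℂ,
        f / aeval C.x (Φ.G 0) ^ q * Q ^ (j + 1) = ∑ i, aeval C.Y (R i) * β i ∧
        ∀ i, ∀ a ∈ (R i).support, ∀ s, (- c (T s).v) * m - c1 * (j + 1) ≤
          (((Φ.ee 0 * (T s).v 0 : ℤ) * (q - ∑ b, (a b : ℤ)) +
            ∑ b, (Φ.ee b.succ * (T s).v b.succ : ℤ) * a b : ℤ) : ℚ) := by
  classical
  obtain ⟨K', iF, iA, iK, hT, G0, G, fG0, fG, hGG, a1, a2, a3, a4, b1, b2, b3, b4, Y, X, hY, hX,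
    hYK, hXZ, hbX⟩ := exists_closure2 C.u_bas C.bas_Y C.adj_le C.fin_Y
  obtain ⟨DY, hDY0⟩ := exists_dual C.bas_Y
  have hDY : ∀ i j, DY i (C.Y j) = if i = j then 1 else 0 := by
    intro i j
    have h1 := congrFun (congrFun hDY0 i) j
    rw [Matrix.of_apply, Matrix.one_apply] at h1
    exact h1
  -- the coordinates in `K'`
  have hXK' : ∀ j, (X j : K') = algebraMap K K' (C.u j) := by
    intro j
    rw [← hXZ, ← IsScalarTower.algebraMap_apply (fixedField G) K K']
    rfl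
  have hYK' : ∀ j, (Y j : K') = algebraMap K K' (C.Y j) := by
    intro j
    rw [← hYK, ← IsScalarTower.algebraMap_apply (fixedField G0) K K']
    rfl
  have hXfun : (fun j => (X j : K')) = fun j => algebraMap K K' (C.u j) := funext hXK'
  have hYfun : (fun j => (Y j : K')) = fun j => algebraMap K K' (C.Y j) := funext hYK'
  obtain ⟨γ, hγd⟩ : ∃ γ, γ = aeval C.x (Φ.G 0) := ⟨_, rfl⟩
  have hγ0 : γ ≠ 0 := by
    rw [hγd]
    exact C.G_ne 0
  have hγG : ∀ g ∈ G, g (algebraMap K K' γ) = algebraMap K K' γ := by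
    intro g hg
    have h1 : algebraMap K K' γ = ((aeval X (deh (Φ.G 0)) : fixedField G) : K') := by
      rw [← aeval_fix, hXfun, hγd, ← C.ae_deh]
      exact (MvPolynomial.aeval_algebraMap_apply K' C.u (deh (Φ.G 0))).symm
    rw [h1]
    exact (aeval X (deh (Φ.G 0)) : fixedField G).2 ⟨g, hg⟩
  have hint : ∀ (q : ℕ) (P : MvPolynomial (Fin (d + 1)) ℂ),
      (∀ m ∈ P.support, ∑ b, m b ≤ Φ.E * q) →
      IsIntegral (Algebra.adjoin ℂ (Set.range fun j => (Y j : K')))
        (aeval (fun j => (X j : K')) P / (algebraMap K K' γ) ^ q) := by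
    intro q P hP
    obtain ⟨p, hp, hp0⟩ := C.int_u hP
    have hle : ∀ x ∈ Algebra.adjoin ℂ (Set.range C.Y), algebraMap K K' x ∈
        Algebra.adjoin ℂ (Set.range fun j => (Y j : K')) := by
      intro x hx
      rw [Algebra.adjoin_range_eq_range_aeval] at hx ⊢
      obtain ⟨Q, rfl⟩ := hx
      refine ⟨Q, ?_⟩
      rw [hYfun]
      exact MvPolynomial.aeval_algebraMap_apply K' C.Y Q
    let φ : Algebra.adjoin ℂ (Set.range C.Y) →+*
        Algebra.adjoin ℂ (Set.range fun j => (Y j : K')) :=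
      ((algebraMap K K').comp (Algebra.adjoin ℂ (Set.range C.Y)).subtype).codRestrict
        (Algebra.adjoin ℂ (Set.range fun j => (Y j : K'))) fun x => hle x.1 x.2
    have hel : aeval (fun j => (X j : K')) P / (algebraMap K K' γ) ^ q =
        algebraMap K K' (aeval C.u P / aeval C.x (Φ.G 0) ^ q) := by
      rw [map_div₀, map_pow, ← hγd, hXfun]
      congr 1
      exact MvPolynomial.aeval_algebraMap_apply K' C.u P
    rw [hel]
    refine ⟨p.map φ, hp.map _, ?_⟩
    rw [Polynomial.eval₂_map]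
    have h1 := congrArg (algebraMap K K') hp0
    rw [map_zero, Polynomial.hom_eval₂] at h1
    exact h1
  -- the place at infinity
  obtain ⟨v0, hv0, hinf⟩ := inf_n C hX hXZ
  obtain ⟨w0, e0, I0, hw0, hI0c, hI0⟩ := exists_inertia G v0
  -- the test places
  have hpl : ∀ s : ι, ∃ v : Place ℂ (fixedField G0), ∀ P : MvPolynomial (Fin (d + 1)) ℂ, P ≠ 0 →
      v.ord (aeval Y P) = zord (T s).lam P := fun s => exists_zmono hY _ (T s).hlam
  choose vs hvs using hpl
  choose ws es Is hws hIsc hIs using fun s => exists_inertia G0 (vs s)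
  obtain ⟨N0, b', Q, c1, hQ0, hC⟩ := two_str2 G0 G hGG hX hbX hY (γ := algebraMap K K' γ)
    (by simpa using hγ0) hγG Φ.E hint hv0 hw0 (fun s => (T s).lam) hvs hws
    (S.image (algebraMap K K'))
  -- the constants of `S`
  obtain ⟨c2, hc2, hc2'⟩ : ∃ c2 : ℕ, (∀ g ∈ G0, ∀ s ∈ S, -(c2 : ℤ) ≤
      w0.ord (g (algebraMap K K' s))) ∧
      ∀ t, ∀ g ∈ G0, ∀ s ∈ S, -(c2 : ℤ) ≤ (ws t).ord (g (algebraMap K K' s)) := by
    have hfin : ((Set.image2 (fun (g : K' ≃ₐ[ℂ] K') (s : K) => w0.ord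
        (g (algebraMap K K' s))) (G0 : Set (K' ≃ₐ[ℂ] K')) (S : Set K)) ∪
        (⋃ t, Set.image2 (fun (g : K' ≃ₐ[ℂ] K') (s : K) => (ws t).ord
        (g (algebraMap K K' s))) (G0 : Set (K' ≃ₐ[ℂ] K')) (S : Set K))).Finite :=
      (Set.Finite.image2 _ (Set.toFinite _) (Set.toFinite _)).union
        (Set.finite_iUnion fun t => Set.Finite.image2 _ (Set.toFinite _) (Set.toFinite _))
    obtain ⟨M0, hM0⟩ := hfin.bddBelow
    refine ⟨M0.natAbs, fun g hg s hs => ?_, fun t g hg s hs => ?_⟩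
    · have h1 := hM0 (Or.inl (Set.mem_image2_of_mem hg hs))
      have h2 : -(M0.natAbs : ℤ) ≤ M0 := by omega
      exact h2.trans h1
    · have h1 := hM0 (Or.inr (Set.mem_iUnion.2 ⟨t, Set.mem_image2_of_mem hg hs⟩))
      have h2 : -(M0.natAbs : ℤ) ≤ M0 := by omega
      exact h2.trans h1
  obtain ⟨NN, hNN⟩ : ∃ NN : ℕ, NN = ∑ s, (T s).N := ⟨_, rfl⟩
  have hNle : ∀ s, (T s).N ≤ NN := by
    intro s
    rw [hNN]
    exact Finset.single_le_sum (f := fun s => (T s).N) (fun _ _ => Nat.zero_le _)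
      (Finset.mem_univ s)
  -- the projection to `K`
  obtain ⟨π, hπ⟩ := (IsScalarTower.toAlgHom (fixedField G0) K K').toLinearMap.exists_leftInverse_of_injective
    (LinearMap.ker_eq_bot.2 (algebraMap K K').injective)
  have hπ' : ∀ z : K, π (algebraMap K K' z) = z := fun z => LinearMap.congr_fun hπ z
  have hYae : ∀ P : MvPolynomial (Fin (d + 1)) ℂ, aeval C.Y P =
      algebraMap (fixedField G0) K (aeval Y P) := by
    intro P
    have h3 : C.Y = fun j => algebraMap (fixedField G0) K (Y j) := funext fun j => (hYK j).symm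
    rw [h3]
    exact MvPolynomial.aeval_algebraMap_apply K Y P
  refine ⟨N0, fun i => π (b' i), aeval C.u Q, (NN + 1) * (c1 + c2 + 1), C.ae_ne hQ0,
    fun {c} {bt} {δ} hcf hmul m j q f hsec hq => ?_⟩
  -- from `K` to `K'`
  have hS' : ∀ s' ∈ pw S j, algebraMap K K' s' ∈ pw (S.image (algebraMap K K')) j := by
    intro s' hs'
    obtain ⟨s, hs, rfl⟩ := mem_pw.1 hs'
    rw [map_pow]
    exact mem_pw.2 ⟨_, Finset.mem_image_of_mem _ hs, rfl⟩
  have hq2 : bt * m + c2 * j + c1 * (j + 1) ≤ Φ.E * q := by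
    refine le_trans ?_ hq
    push_cast
    have h1 : (0 : ℤ) ≤ NN * (c1 + c2 + 1) * (j + 1) := by positivity
    have h2 : (0 : ℤ) ≤ (c2 + j + 1 : ℤ) := by positivity
    nlinarith
  have hfine : Fine G X (pw (S.image (algebraMap K K')) j) (algebraMap K K' (f)) := by
    -- the places of the irreducible polynomials
    intro p hp v hvp hv
    obtain ⟨w, e, I, hwv, hcard, hI⟩ := exists_inertia G v
    refine ⟨w, e, hwv, fun g hg => ?_⟩
    obtain ⟨P, e1, e2, h1, h2, he⟩ := exists_restr (K := K) (over_comp hwv hg)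
    rcases adic_n C hcf hX hXZ hp hv h2 hsec with h3 | ⟨s', hs', hs0, hle⟩
    · left
      rw [h3, map_zero]
    · right
      refine ⟨algebraMap K K' s', hS' s' hs', by simpa using hs0, ?_⟩
      rw [← Place.comp_ord, ← Place.comp_ord, h1.2, h1.2]
      exact mul_le_mul_of_nonneg_left hle (by positivity)
  have hinf' : ∀ g ∈ G, Ge w0 (- (e0 * (bt * m + c2 * j)))
      (g (algebraMap K K' (f))) := by
    -- the place at infinity
    intro g hg
    obtain ⟨P, e1, e2, h1, h2, he⟩ := exists_restr (K := K) (over_comp hw0 hg)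
    have he2 : e2 = 1 := by
      refine C.ramG hXZ hw0 hI0 hI0c hg h1 he fun i => ?_
      rw [Cv.pb, map_prod, ord_prod' v0 Finset.univ _ fun s _ => by
        rw [map_pow]
        exact pow_ne_zero _ (hX.ne (Cv.deh_F_ne s))]
      have h3 : ∀ s, v0.ord (aeval X (deh (Φ.F s) ^ C.a i s)) =
          - ((C.a i s * Φ.dF s : ℕ) : ℤ) := by
        intro s
        rw [map_pow, v0.ord_pow, hv0 _ (Cv.deh_F_ne s), degB_deh (Φ.hh s) (Φ.hI s)]
        push_cast
        ring
      rw [Finset.sum_congr rfl fun s _ => h3 s, Finset.sum_neg_distrib, dvd_neg]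
      exact_mod_cast C.hdiv i
    subst he2
    rcases hinf hcf P h2 (pw S j) m f hsec with h3 | ⟨s', hs', hs0, hle⟩
    · left
      rw [h3, map_zero, map_zero]
    · right
      obtain ⟨s, hs, rfl⟩ := mem_pw.1 hs'
      have h4 := hc2 g (hGG hg) s hs
      rw [← Place.comp_ord, h1.2] at h4
      rw [← Place.comp_ord, h1.2]
      rw [P.ord_pow] at hle
      have h5 : (e0 : ℤ) = e1 := by
        rw [he]
        push_cast
        ring
      rw [h5]
      have h6 : (e1 : ℤ) * (j * P.ord s) ≤ e1 * (P.ord (f) +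
        bt * m) := mul_le_mul_of_nonneg_left hle (by positivity)
      have h7 : (j : ℤ) * (-(c2 : ℤ)) ≤ j * (e1 * P.ord s) :=
        mul_le_mul_of_nonneg_left h4 (by positivity)
      have h8 : (1 : ℤ) ≤ e1 := by exact_mod_cast h1.1
      have h9 : (0 : ℤ) ≤ c2 * j := by positivity
      have h10 : (c2 : ℤ) * j ≤ e1 * (c2 * j) := by nlinarith
      nlinarith
  have htest : ∀ s, ∀ g ∈ G0, Ge (ws s)
      (⌈((es s : ℚ) * m * (- c (T s).v)) / (T s).N⌉ - c2 * j - q * (es s * (T s).V 0))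
      (g (algebraMap K K' (f) / (algebraMap K K' γ) ^ q)) := by
    -- the test places
    intro s g hg
    obtain ⟨P, e1, e2, h1, h2, he⟩ := exists_restr (K := K) (over_comp (hws s) hg)
    obtain ⟨b0, hb0⟩ := (T s).ne
    obtain ⟨α, vv, hα, hdat⟩ := C.exists_dat P
    -- the logarithmic vector fields
    obtain ⟨dd, hdddef⟩ : ∃ dd : Fin (d + 1) → Derivation ℂ K K,
      dd = fun b => algebraMap (fixedField G0) K (Y b) • DY b := ⟨_, rfl⟩
    have hlog : ∀ b z, P.Reg (dd b z / z) := fun b z => by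
      rw [hdddef]
      exact log_zmono hY (T s).lam (hvs s) h2 (fun j => by rw [hYK]; exact hDY b j) z
    have hdd : ∀ i j, dd i (C.Y j) = if i = j then C.Y j else 0 := by
      intro i j
      rw [hdddef]
      dsimp only
      rw [Derivation.smul_apply, hDY, smul_eq_mul, hYK]
      split_ifs with hij
      · rw [mul_one, hij]
      · rw [mul_zero]
    have hordY : ∀ b, P.ord (C.Y b) = e2 * (((T s).V b.succ : ℤ) - (T s).V 0) := by
      intro b
      have h3 := hvs s (MvPolynomial.X b) (X_ne_zero _)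
      rw [aeval_X, zord_X] at h3
      rw [← hYK, h2.2, h3]
      rfl
    have hrel := C.toric_rel hdat (T s).h0 hordY
    have hdvd : e2 ∣ (T s).N := C.ram (hws s) (hIs s) (hIsc s) hg h1 he
      (fun b σ hσ => by
        rw [← hYK']
        exact (Y b).2 ⟨σ, hσ⟩) hdat (fun y j hj hy => C.jc_unit hdat hdd hlog hj hy)
      (T s).hv hrel (T s).hT
    have hq3 : bt * m ≤ Φ.E * q := by
      have h3 : (0 : ℤ) ≤ c2 * j + c1 * (j + 1) := by positivity
      linarith
    obtain ⟨r, hr1, hNr, hTv, hvv0⟩ := exists_mul C (T s) h2.1 hdvd (fun k => by exact_mod_cast hrel k)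
    have hbr : - c (T s).v ≤ r * (- c vv) := by
      rw [hTv]
      exact hmul vv r hr1 (C.adm hdat hvv0)
    rw [← map_pow, ← map_div₀, hγd]
    rcases test_n C hcf hY (T s).lam hb0 (hvs s) h2 hdat hα hsec hq3 with
      h3 | ⟨s', hs', hs0, hle⟩
    · left
      rw [h3, map_zero, map_zero]
    · right
      obtain ⟨s0, hs, rfl⟩ := mem_pw.1 hs'
      have h4 := hc2' s g hg s0 hs
      rw [← Place.comp_ord, h1.2] at h4
      rw [← Place.comp_ord, h1.2]
      rw [P.ord_pow] at hle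
      have hr0 : (Φ.ee 0 : ℚ) * vv 0 = e2 * (T s).V 0 := by exact_mod_cast hrel 0
      rw [hr0] at hle
      obtain ⟨Q, hQ⟩ : ∃ Q : ℤ, Q = P.ord (f / aeval C.x (Φ.G 0) ^ q) := ⟨_, rfl⟩
      rw [← hQ] at hle ⊢
      have hN0 : (0 : ℚ) < (T s).N := by exact_mod_cast (T s).hN
      have he1 : (0 : ℚ) ≤ e1 := by positivity
      have h5 := mul_le_mul_of_nonneg_left hle he1
      have h7 : (j : ℤ) * (-(c2 : ℤ)) ≤ j * (e1 * P.ord s0) :=
        mul_le_mul_of_nonneg_left h4 (by positivity)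
      have h7' : (j : ℚ) * (-(c2 : ℚ)) ≤ j * (e1 * P.ord s0) := by exact_mod_cast h7
      have h8 : ((es s : ℚ) * m * (- c (T s).v)) / (T s).N ≤ e1 * m * (- c vv) := by
        rw [div_le_iff₀ hN0, he, hNr]
        push_cast
        have h9 : (0 : ℚ) ≤ e1 * m * e2 := by positivity
        have h10 := mul_le_mul_of_nonneg_left hbr h9
        linarith
      have h11 : (((q : ℤ) * (es s * (T s).V 0) : ℤ) : ℚ) = e1 * (q * (e2 * (T s).V 0)) := by
        rw [he]
        push_cast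
        ring
      have h12 : ⌈((es s : ℚ) * m * (- c (T s).v)) / (T s).N⌉ ≤
          e1 * Q + c2 * j + q * (es s * (T s).V 0) := by
        rw [Int.ceil_le]
        have h13 : (((e1 * Q + c2 * j + q * (es s * (T s).V 0) : ℤ) : ℚ)) =
          e1 * Q + c2 * j + (((q : ℤ) * (es s * (T s).V 0) : ℤ) : ℚ) := by
          push_cast
          ring
        rw [h13, h11]
        push_cast at h5 h7'
        linarith
      linarith
  obtain ⟨R, hR, hRs⟩ := hC j q (bt * m + c2 * j)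
    (fun s => ⌈((es s : ℚ) * m * (- c (T s).v)) / (T s).N⌉ - c2 * j - q * (es s * (T s).V 0))
    (algebraMap K K' (f)) hfine hinf' hq2 htest
  refine ⟨R, ?_, ?_⟩
  · have h1 := congrArg π hR
    obtain ⟨z0, hz0⟩ : ∃ z0, z0 = f := ⟨_, rfl⟩
    rw [← hz0] at h1 ⊢
    have h2 : algebraMap K K' z0 / (algebraMap K K' γ) ^ q *
        aeval (fun j => (X j : K')) Q ^ (j + 1) =
        algebraMap K K' (z0 / γ ^ q * aeval C.u Q ^ (j + 1)) := by
      rw [map_mul, map_div₀, map_pow, map_pow, hXfun]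
      congr 2
      exact MvPolynomial.aeval_algebraMap_apply K' C.u Q
    rw [h2, hπ'] at h1
    rw [← hγd, h1, map_sum]
    refine Finset.sum_congr rfl fun i _ => ?_
    have h3 : ((aeval Y (R i) : fixedField G0) : K') * b' i =
        (aeval Y (R i) : fixedField G0) • b' i := by
      rw [Algebra.smul_def]
      rfl
    rw [h3, map_smul, Algebra.smul_def, hYae]
  · -- the exponents
    intro i a ha s
    have h1 := hRs i a ha s
    have hN0 : (0 : ℚ) < (T s).N := by exact_mod_cast (T s).hN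
    have hes : (1 : ℚ) ≤ es s := by exact_mod_cast (hws s).1
    obtain ⟨W, hW⟩ : ∃ W : ℤ, W = (T s).V 0 * (q - ∑ b, (a b : ℤ)) +
      ∑ b, ((T s).V b.succ : ℤ) * a b := ⟨_, rfl⟩
    have hsum : (Φ.ee 0 * (T s).v 0 : ℤ) * (q - ∑ b, (a b : ℤ)) +
        ∑ b, (Φ.ee b.succ * (T s).v b.succ : ℤ) * a b = (T s).N * W := by
      have h2 : ∀ k, (Φ.ee k : ℤ) * (T s).v k = (T s).N * (T s).V k := fun k => by
        exact_mod_cast (T s).hv k
      simp only [h2]
      rw [hW, mul_add, Finset.mul_sum]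
      congr 1
      · ring
      · exact Finset.sum_congr rfl fun b _ => by ring
    have hz : zwt (T s).lam a = W - q * (T s).V 0 := by
      rw [hW]
      unfold zwt Cv.Dir.lam
      simp only [sub_mul]
      rw [Finset.sum_sub_distrib, ← Finset.mul_sum]
      ring
    rw [hsum]
    rw [hz] at h1
    have h2 : ⌈((es s : ℚ) * m * (- c (T s).v)) / (T s).N⌉ ≤ es s * W + c2 * j + c1 * (j + 1) := by
      nlinarith
    rw [Int.ceil_le, div_le_iff₀ hN0] at h2
    push_cast at h2 ⊢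
    have h4 : (es s : ℚ) * (m * (- c (T s).v) - (T s).N * W) ≤
        (c2 * j + c1 * (j + 1)) * (T s).N := by
      nlinarith
    have h5 : (m : ℚ) * (- c (T s).v) - (T s).N * W ≤ (c2 * j + c1 * (j + 1)) * (T s).N := by
      by_cases h6 : (m : ℚ) * (- c (T s).v) - (T s).N * W ≤ 0
      · exact h6.trans (by positivity)
      · push Not at h6
        nlinarith
    have h6 : ((T s).N : ℚ) ≤ NN := by exact_mod_cast hNle s
    have h7 : (c2 * j + c1 * (j + 1) : ℚ) * (T s).N ≤ (c2 * j + c1 * (j + 1)) * NN :=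
      mul_le_mul_of_nonneg_left h6 (by positivity)
    have h8 : (c2 * j + c1 * (j + 1) : ℚ) * NN ≤ ((NN + 1) * (c1 + c2 + 1)) * (j + 1) := by
      have h9 : (c2 * j + c1 * (j + 1) : ℚ) ≤ (c1 + c2 + 1) * (j + 1) := by
        have : (0 : ℚ) ≤ (c2 + j + 1 : ℚ) := by positivity
        nlinarith
      calc (c2 * j + c1 * (j + 1) : ℚ) * NN ≤ ((c1 + c2 + 1) * (j + 1)) * NN :=
            mul_le_mul_of_nonneg_right h9 (by positivity)
        _ ≤ _ := by
          have : (0 : ℚ) ≤ (c1 + c2 + 1) * (j + 1) := by positivity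
          nlinarith
    linarith

end Pool.Agent.U189.NF
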